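import Pool.Agent.N848.SK.MainS
import Pool.Agent.N848.AW.MqW
import Pool.Agent.N848.Q.D

/-!
# The twists of the powers of the cyclotomic character over `ℚ(√-7)`
-/

set_option autoImplicit false
set_option linter.unusedSectionVars false

namespace Pool.Agent.N848.SK.G

open Pool.Agent.R384
open Pool.Agent.Y715.Red Pool.Agent.Y715.Nr Pool.Agent.W237.RK
open Pool.Agent.Y715.Gi (QB KK GK i₀_mem gk_fix)
open Pool.Agent.Y715.Df (Cmp exists_cmp)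
open Pool.Agent.Y715.Lc (norm_two_odd)
open Pool.Agent.N848.Q (cyc_four inert_I)

open scoped Classical Topology

variable {i₀ : QB}

/-- an automorphism over `K` as an automorphism over `ℚ` -/
noncomputable def res (i₀ : QB) : GK i₀ →* (QB ≃ₐ[ℚ] QB) where
  toFun σ := σ.restrictScalars ℚ
  map_one' := rfl
  map_mul' _ _ := rfl

lemma res_apply (σ : GK i₀) (x : QB) : res i₀ σ x = σ x := rfl

lemma res_cont : Continuous (res i₀) := by
  refine continuous_of_continuousAt_one _ ?_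
  unfold ContinuousAt
  rw [map_one]
  intro s hs
  rw [krullTopology_mem_nhds_one_iff] at hs
  obtain ⟨E, hE, hEs⟩ := hs
  have := hE
  let b := Module.finBasis ℚ E
  have h1 : ∀ i, {σ : GK i₀ | σ ((b i : E) : QB) = ((b i : E) : QB)} ∈ 𝓝 (1 : GK i₀) := by
    intro i
    have h2 := Pool.Agent.W309.TD.locConst_apply (K := KK i₀) (Ω := QB) ((b i : E) : QB)
    exact (h2.isOpen_fiber _).mem_nhds rfl
  rw [Filter.mem_map]
  filter_upwards [(Filter.iInter_mem (s := fun i =>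
    {σ : GK i₀ | σ ((b i : E) : QB) = ((b i : E) : QB)})).2 h1] with σ hσ
  apply hEs
  rw [SetLike.mem_coe, IntermediateField.mem_fixingSubgroup_iff]
  intro x hx
  have h2 := b.sum_repr ⟨x, hx⟩
  have h3 : x = ∑ i, (b.repr ⟨x, hx⟩ i) • ((b i : E) : QB) := by
    have h4 := congrArg (fun z : E => (z : QB)) h2
    simp only [IntermediateField.coe_sum, IntermediateField.coe_smul] at h4
    exact h4.symm
  rw [h3, map_sum]
  refine Finset.sum_congr rfl fun i _ => ?_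
  have h4 : σ ((b i : E) : QB) = ((b i : E) : QB) := Set.mem_iInter.1 hσ i
  rw [Algebra.smul_def, map_mul, AlgEquiv.commutes]
  exact congrArg (fun z => algebraMap ℚ QB (b.repr ⟨x, hx⟩ i) * z) h4

/-- the cyclotomic character over `K` -/
noncomputable def cK (i₀ : QB) : GK i₀ →* ℤ_[2]ˣ := Pool.Agent.N848.Q.cyc.comp (res i₀)

lemma cK_cont : Continuous (cK i₀) := Pool.Agent.N848.Q.cyc_cont.comp res_cont

lemma mem_QI {p : ℕ} [Fact p.Prime] {ι : QB →ₐ[ℚ] PadicAlgCl p} {σ : GK i₀} (h : σ ∈ II ι) :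
    res i₀ σ ∈ Pool.Agent.N848.Q.II ι := by
  obtain ⟨τ, h1, h2⟩ := h
  exact ⟨τ, h1, h2⟩

lemma cK_inert {p : ℕ} [Fact p.Prime] (hp : p ≠ 2) {ι : QB →ₐ[ℚ] PadicAlgCl p} {σ : GK i₀}
    (h : σ ∈ II ι) : cK i₀ σ = 1 := Pool.Agent.N848.Q.cyc_inert hp (mem_QI h)

lemma cK_fixI {I : QB} (hI : I ^ 2 = -1) {p : ℕ} [Fact p.Prime] (hp : p ≠ 2)
    {ι : QB →ₐ[ℚ] PadicAlgCl p} {σ : GK i₀} (h : σ ∈ II ι) : σ I = I :=
  inert_I hI hp (mem_QI h)

lemma ph_cK_even {k : ℤ} (hk : Even k) (σ : GK i₀) :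
    ph ((cK i₀ ^ k : GK i₀ →* ℤ_[2]ˣ) σ) = 1 := by
  obtain ⟨l, rfl⟩ := hk
  show ph ((cK i₀ σ) ^ (l + l)) = 1
  rw [map_zpow, ← two_mul, zpow_even (sq_four _)]

lemma ph_cK_odd {I : QB} (hI : I ^ 2 = -1) {k : ℤ} (hk : Odd k) (σ : GK i₀) :
    (σ I = I → ph ((cK i₀ ^ k : GK i₀ →* ℤ_[2]ˣ) σ) = 1) ∧
      (σ I = -I → ph ((cK i₀ ^ k : GK i₀ →* ℤ_[2]ˣ) σ) = -1) := by
  have h1 : ph ((cK i₀ ^ k : GK i₀ →* ℤ_[2]ˣ) σ) = ph (Pool.Agent.N848.Q.cyc (res i₀ σ)) := by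
    obtain ⟨l, rfl⟩ := hk
    show ph ((cK i₀ σ) ^ (2 * l + 1)) = _
    rw [map_zpow, zpow_add, zpow_even (sq_four _), zpow_one, one_mul]
    rfl
  rw [h1]
  exact cyc_four hI (res i₀ σ)

variable (hi : i₀ ^ 2 = i₀ - 2)

section tw

variable {D : OO} {r I : QB} (hr : r ^ 2 = em hi D) (hI : I ^ 2 = -1) (hr0 : r ≠ 0)
  (hrs : ∀ σ : GK i₀, σ r = r ∨ σ r = -r)

lemma ph_m1 : ph (-1 : ℤ_[2]ˣ) = -1 := by
  rw [ph_neg]
  simp

include hr in
/-- the twists of the even powers -/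
theorem chi_even {k : ℤ} (hk : Even k) :
    ChiD hi (cK i₀ ^ k * sgc (es hr0 hrs)) D r where
  cont := (cK_cont.zpow k).mul (cont_sgc (es_open hr0 hrs))
  hr := hr
  one σ h := by
    rw [← ph_one]
    show ph ((cK i₀ ^ k : GK i₀ →* ℤ_[2]ˣ) σ * sgc (es hr0 hrs) σ) = 1
    rw [map_mul, ph_cK_even hk, sgc_one ((es_one hr0 hrs).2 h), map_one, one_mul]
  neg σ h := by
    rw [← ph_neg]
    show ph ((cK i₀ ^ k : GK i₀ →* ℤ_[2]ˣ) σ * sgc (es hr0 hrs) σ) = -1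
    rw [map_mul, ph_cK_even hk, sgc_neg ((es_neg hr0 hrs).2 h), ph_m1, one_mul]
  inert p _ ι τ σ hp hc hin := by
    have h1 : cK i₀ σ = 1 := cK_inert hp ⟨τ, hc, hin⟩
    have h2 : (cK i₀ ^ k * sgc (es hr0 hrs) : GK i₀ →* ℤ_[2]ˣ) σ = sgc (es hr0 hrs) σ := by
      show (cK i₀ σ) ^ k * _ = _
      rw [h1, one_zpow, one_mul]
    rw [h2]
    exact ⟨fun h => sgc_one ((es_one hr0 hrs).2 h), fun h => sgc_neg ((es_neg hr0 hrs).2 h)⟩

lemma I_ne (hI : I ^ 2 = -1) : I ≠ 0 := by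
  rintro rfl
  norm_num at hI

lemma I_or (hI : I ^ 2 = -1) (σ : GK i₀) : σ I = I ∨ σ I = -I := by
  have h : (σ I) ^ 2 = I ^ 2 := by rw [← map_pow, hI, map_neg, map_one]
  exact sq_eq_sq_iff_eq_or_eq_neg.1 h

include hr hI in
/-- the twists of the odd powers -/
theorem chi_odd {k : ℤ} (hk : Odd k) :
    ChiD hi (cK i₀ ^ k * sgc (es hr0 hrs)) (-D) (I * r) := by
  have hI0 := I_ne hI
  have hne : I * r ≠ -(I * r) := by
    intro h
    have h2 : (2 : QB) * (I * r) = 0 := by linear_combination h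
    exact mul_ne_zero hI0 hr0 ((mul_eq_zero.1 h2).resolve_left two_ne_zero)
  have key : ∀ σ : GK i₀,
      (σ (I * r) = I * r → (σ I = I ∧ σ r = r) ∨ (σ I = -I ∧ σ r = -r)) ∧
      (σ (I * r) = -(I * r) → (σ I = I ∧ σ r = -r) ∨ (σ I = -I ∧ σ r = r)) := by
    intro σ
    rw [map_mul]
    rcases I_or hI σ with h | h <;> rcases hrs σ with h1 | h1
    · rw [h, h1]
      exact ⟨fun _ => Or.inl ⟨rfl, rfl⟩, fun h2 => absurd h2 hne⟩
    · rw [h, h1, mul_neg]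
      exact ⟨fun h2 => absurd h2.symm hne, fun _ => Or.inl ⟨rfl, rfl⟩⟩
    · rw [h, h1, neg_mul]
      exact ⟨fun h2 => absurd h2.symm hne, fun _ => Or.inr ⟨rfl, rfl⟩⟩
    · rw [h, h1, neg_mul_neg]
      exact ⟨fun _ => Or.inr ⟨rfl, rfl⟩, fun h2 => absurd h2 hne⟩
  have hap : ∀ σ : GK i₀, (cK i₀ ^ k * sgc (es hr0 hrs) : GK i₀ →* ℤ_[2]ˣ) σ =
    (cK i₀ ^ k : GK i₀ →* ℤ_[2]ˣ) σ * sgc (es hr0 hrs) σ := fun _ => rfl
  refine ⟨(cK_cont.zpow k).mul (cont_sgc (es_open hr0 hrs)), ?_, ?_, ?_, ?_⟩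
  · rw [mul_pow, hI, hr, map_neg]
    ring
  · intro σ h
    rw [← ph_one, hap, map_mul]
    rcases (key σ).1 h with ⟨h1, h2⟩ | ⟨h1, h2⟩
    · rw [(ph_cK_odd hI hk σ).1 h1, sgc_one ((es_one hr0 hrs).2 h2), map_one, one_mul]
    · rw [(ph_cK_odd hI hk σ).2 h1, sgc_neg ((es_neg hr0 hrs).2 h2), ph_m1, neg_mul_neg, one_mul]
  · intro σ h
    rw [← ph_neg, hap, map_mul]
    rcases (key σ).2 h with ⟨h1, h2⟩ | ⟨h1, h2⟩
    · rw [(ph_cK_odd hI hk σ).1 h1, sgc_neg ((es_neg hr0 hrs).2 h2), ph_m1, one_mul]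
    · rw [(ph_cK_odd hI hk σ).2 h1, sgc_one ((es_one hr0 hrs).2 h2), map_one, mul_one]
  · intro p _ ι τ σ hp hc hin
    have hσ : σ ∈ II ι := ⟨τ, hc, hin⟩
    have h1 : cK i₀ σ = 1 := cK_inert hp hσ
    have hσI := cK_fixI hI hp hσ
    have h2 : (cK i₀ ^ k * sgc (es hr0 hrs) : GK i₀ →* ℤ_[2]ˣ) σ = sgc (es hr0 hrs) σ := by
      show (cK i₀ σ) ^ k * _ = _
      rw [h1, one_zpow, one_mul]
    rw [h2, map_mul, hσI]
    constructor
    · intro h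
      exact sgc_one ((es_one hr0 hrs).2 (mul_left_cancel₀ hI0 h))
    · intro h
      rw [← mul_neg] at h
      exact sgc_neg ((es_neg hr0 hrs).2 (mul_left_cancel₀ hI0 h))

end tw

/-- the conditions on all cocycles: the vanishing over the field fixed by `H`, for the classes which
are trivial at all places above two (the norm of the image of `2` is always less than one) -/
abbrev VanT (χ : GK i₀ →* ℤ_[2]ˣ) (H : Subgroup (GK i₀)) : Prop := VanOn hi (2 : OO) χ H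

lemma norm_em_two (ι : QB →ₐ[ℚ] PadicAlgCl 2) : ‖ι (em hi (2 : OO))‖ < 1 := by
  rw [map_ofNat, map_ofNat, Pool.Agent.Y715.Gi.norm_two']
  norm_num

lemma coc_top {χ : GK i₀ →* ℤ_[2]ˣ} {c : GK i₀ → ℚ_[2]} (hc : CocOn χ ⊤ c) : Coc χ c :=
  ⟨by
    have := hc.cont
    rwa [Subgroup.coe_top, continuousOn_univ] at this, fun σ τ => hc.mul σ trivial τ trivial⟩

/-- the characters unramified outside two -/
theorem van_unr {χ : GK i₀ →* ℤ_[2]ˣ} (hχ : Continuous χ) (hu : Unr χ) : VanT hi χ ⊤ := by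
  intro c hc hodd htwo
  obtain ⟨y, hy⟩ := vanish_unr hi hχ hu (Or.inl ⟨rfl, rfl⟩) (coc_top hc)
    (fun p _ ι hp => by
      obtain ⟨y, hy⟩ := hodd p ι hp
      exact ⟨y, fun σ hσ => hy σ hσ trivial⟩)
    (fun ι _ => by
      obtain ⟨y, hy⟩ := htwo ι (norm_em_two hi ι)
      exact ⟨y, fun σ hσ => hy σ hσ trivial⟩)
  exact ⟨y, fun σ _ => hy σ⟩

/-- the characters which are quadratic modulo four -/
theorem van_chi {χ : GK i₀ →* ℤ_[2]ˣ} {m : OO} {r : QB} (hms : Squarefree m)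
    (h8 : (8 : OO) ∣ m - 5 ∨ (8 : OO) ∣ m + 5) (h7 : ¬ s7 ∣ m) (cd : ChiD hi χ m r)
    (hAlg : AlgC m) : VanT hi χ ⊤ := by
  intro c hc hodd htwo
  obtain ⟨y, hy⟩ := mainS hi hms h8 h7 cd hAlg (coc_top hc)
    (fun p _ ι hp => by
      obtain ⟨y, hy⟩ := hodd p ι hp
      exact ⟨y, fun σ hσ => hy σ hσ trivial⟩)
    (fun ι => by
      obtain ⟨y, hy⟩ := htwo ι (norm_em_two hi ι)
      exact ⟨y, fun σ hσ => hy σ hσ trivial⟩)
  exact ⟨y, fun σ _ => hy σ⟩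

lemma unr_cK (k : ℤ) : Unr (cK i₀ ^ k) := by
  intro p _ ι hp σ hσ
  show (cK i₀ σ) ^ k = 1
  rw [cK_inert hp hσ, one_zpow]

lemma unr_mul {χ χ' : GK i₀ →* ℤ_[2]ˣ} (h : Unr χ) (h' : Unr χ') : Unr (χ * χ') := by
  intro p _ ι hp σ hσ
  show χ σ * χ' σ = 1
  rw [h p ι hp σ hσ, h' p ι hp σ hσ, one_mul]

lemma unr_I {I : QB} (hI : I ^ 2 = -1) :
    Unr (sgc (es (I_ne hI) (I_or (i₀ := i₀) hI))) := by
  intro p _ ι hp σ hσ
  exact sgc_one ((es_one _ _).2 (cK_fixI hI hp hσ))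

/-- the class -/
structure ClD (D : OO) : Prop where
  sqf : Squarefree D
  eight : (8 : OO) ∣ D - 5
  n7 : ¬ s7 ∣ D

lemma ClD.neg {D : OO} (h : ClD D) : Squarefree (-D) ∧ ((8 : OO) ∣ -D - 5 ∨ (8 : OO) ∣ -D + 5) ∧
    ¬ s7 ∣ -D := by
  refine ⟨(Associated.neg_left (Associated.refl D)).squarefree_iff.2 h.sqf, Or.inr ?_, ?_⟩
  · have e : -D + 5 = -(D - 5) := by ring
    rw [e]
    exact dvd_neg.2 h.eight
  · rw [dvd_neg]
    exact h.n7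

/-- the twists by `√D` -/
theorem van_D {D : OO} (hD : ClD D) {r I : QB} (hr : r ^ 2 = em hi D) (hI : I ^ 2 = -1)
    (hr0 : r ≠ 0) (hrs : ∀ σ : GK i₀, σ r = r ∨ σ r = -r) (k : ℤ)
    (hE : Even k → AlgC D) (hO : Odd k → AlgC (-D)) :
    VanT hi (cK i₀ ^ k * sgc (es hr0 hrs)) ⊤ := by
  rcases Int.even_or_odd k with hk | hk
  · exact van_chi hi hD.sqf (Or.inl hD.eight) hD.n7 (chi_even hi hr hr0 hrs hk) (hE hk)
  · obtain ⟨h1, h2, h3⟩ := hD.neg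
    exact van_chi hi h1 h2 h3 (chi_odd hi hr hI hr0 hrs hk) (hO hk)

end Pool.Agent.N848.SK.G
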