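import Pool.Agent.N848.SK.MainS

/-!
# The condition on the factorizations and the algebraic condition
-/

set_option autoImplicit false
set_option linter.unusedSectionVars false

namespace Pool.Agent.N848.SK.G

open Pool.Agent.R384

/-- the condition: the only factorizations `m = a b` such that `a` is `1` or `m` modulo the cubes of
the two primes above `2`, `a` is a square modulo the prime divisors of `b` and conversely, are the
trivial ones -/
def CondO (m : OO) : Prop := ∀ a b : OO, m = a * b →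
  (om ^ 3 ∣ a - 1 ∨ om ^ 3 ∣ a - m) → ((1 - om) ^ 3 ∣ a - 1 ∨ (1 - om) ^ 3 ∣ a - m) →
  (∀ π, Prime π → (π ∣ b → ∃ y, π ∣ a - y ^ 2) ∧ (π ∣ a → ∃ y, π ∣ b - y ^ 2)) → a = 1 ∨ a = m

/-- a squarefree element divides `m` if its prime divisors divide `m` -/
lemma dvd_of_support {δ m : OO} (hδ : Squarefree δ) (h : ∀ π, Prime π → π ∣ δ → π ∣ m) : δ ∣ m := by
  induction δ using UniqueFactorizationMonoid.induction_on_prime with
  | h₁ => exact absurd hδ not_squarefree_zero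
  | h₂ x hx => exact hx.dvd
  | h₃ a p ha hp ih =>
    have h1 : a ∣ m := ih (hδ.of_mul_right) fun π hπ hd => h π hπ (hd.mul_left _)
    have h2 : p ∣ m := h p hp (dvd_mul_right _ _)
    have h3 : ¬ p ∣ a := by
      rintro ⟨t, rfl⟩
      exact hp.not_isUnit (hδ p ⟨t, by ring⟩)
    exact (hp.irreducible.coprime_iff_not_dvd.2 h3).mul_dvd h2 h1

theorem algC_of {m : OO} (hm : Squarefree m) (h8 : (8 : OO) ∣ m - 5 ∨ (8 : OO) ∣ m + 5)
    (h : CondO m) : AlgC m := by
  intro δ hδ n1 n2 hsup s1 s2 hloc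
  obtain ⟨b, hb⟩ := dvd_of_support hδ hsup
  -- the square of `m` is one modulo eight
  have hm8 : (8 : OO) ∣ m ^ 2 - 1 := by
    rcases h8 with ⟨t, ht⟩ | ⟨t, ht⟩
    · refine ⟨8 * t ^ 2 + 10 * t + 3, ?_⟩
      have e : m = 8 * t + 5 := by linear_combination ht
      rw [e]
      ring
    · refine ⟨8 * t ^ 2 - 10 * t + 3, ?_⟩
      have e : m = 8 * t - 5 := by linear_combination ht
      rw [e]
      ring
  have e8 : (om * (1 - om)) ^ 3 = (8 : OO) := by rw [om_mul]; norm_num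
  have key : ∀ ϖ : OO, ϖ ^ 3 ∣ 8 → (ϖ ^ 3 ∣ δ - 1 ∨ ϖ ^ 3 ∣ δ * m - 1) →
      (ϖ ^ 3 ∣ δ - 1 ∨ ϖ ^ 3 ∣ δ - m) := by
    intro ϖ h3 hs
    rcases hs with hs | hs
    · exact Or.inl hs
    · right
      have e : δ - m = m * (δ * m - 1) - δ * (m ^ 2 - 1) := by ring
      rw [e]
      exact dvd_sub (hs.mul_left _) ((h3.trans hm8).mul_left _)
  refine h δ b hb (key om ?_ s1) (key (1 - om) ?_ s2) fun π hπ => ⟨fun hd => ?_, fun hd => ?_⟩
  · rw [← e8, mul_pow]
    exact dvd_mul_right _ _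
  · rw [← e8, mul_pow]
    exact dvd_mul_left _ _
  · rcases hloc π hπ (by rw [hb]; exact hd.mul_left _) with ⟨-, h2⟩ | ⟨δ1, m1, h1, -, -⟩
    · exact h2
    · exfalso
      obtain ⟨t, ht⟩ := hd
      exact hπ.not_isUnit (hm π ⟨δ1 * t, by rw [hb, h1, ht]; ring⟩)
  · rcases hloc π hπ (by rw [hb]; exact hd.mul_right _) with ⟨h1, -⟩ | ⟨δ1, m1, h1, h2, y, hy⟩
    · exact absurd hd h1
    · have hm1 : m1 = δ1 * b := by
        apply mul_left_cancel₀ hπ.ne_zero
        rw [← h2, hb, h1]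
        ring
      have h3 : ¬ π ∣ δ1 := by
        rintro ⟨t, rfl⟩
        exact hπ.not_isUnit (hδ π ⟨t, by rw [h1]; ring⟩)
      obtain ⟨u, v, huv⟩ := hπ.irreducible.coprime_iff_not_dvd.2 h3
      obtain ⟨z, hz⟩ := hy
      refine ⟨v * y, u * b * (1 + v * δ1) + v ^ 2 * z, ?_⟩
      have e1 : v * δ1 = 1 - u * π := by linear_combination huv
      rw [hm1] at hz
      have e2 : b - (v * y) ^ 2 = b * (1 - (v * δ1) ^ 2) + v ^ 2 * (δ1 * (δ1 * b) - y ^ 2) := by ring
      rw [e2, hz]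
      linear_combination -(b * (1 + v * δ1)) * e1

end Pool.Agent.N848.SK.G
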