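import Pool.Agent.N848.SK.Stm
import Pool.Agent.N701.AW.LAS

/-!
# Project SK (helper848), part LAF: the general law with one more equation (by helper618)
-/

set_option autoImplicit false
set_option linter.unusedVariables false

open scoped Classical

namespace Pool.Agent.N848.SK.LAFp

open Finset
open Pool.Agent.R426.QK
open Pool.Agent.N848.AW
open Pool.Agent.N848.AW.LAS
open Pool.Agent.N848.SK

section gen

variable {I : Type} [Fintype I]

/-- the number of elements with a property does not depend on the instances -/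
theorem fcc {α : Type} (s1 s2 : Fintype α) (p : α → Prop) (d1 d2 : DecidablePred p) :
    (@Finset.filter α p d1 (@Finset.univ α s1)).card =
      (@Finset.filter α p d2 (@Finset.univ α s2)).card := by
  obtain rfl : s1 = s2 := Subsingleton.elim _ _
  obtain rfl : d1 = d2 := Subsingleton.elim _ _
  rfl

/-- the kernel of a linear form which is not zero -/
theorem card_ker (f : I → ZMod 2) (hf : f ≠ 0) :
    2 * (univ.filter fun x : I → ZMod 2 => ∑ l, f l * x l = 0).card = 2 ^ Fintype.card I := by
  obtain ⟨i, hi⟩ : ∃ i, f i ≠ 0 := by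
    by_contra h
    push Not at h
    exact hf (funext h)
  have hi1 : f i = 1 := by
    rcases zc (f i) with h | h
    · exact absurd h hi
    · exact h
  have hsum : ∀ x : I → ZMod 2, ∑ l, f l * (x + (Pi.single i 1 : I → ZMod 2)) l =
      ∑ l, f l * x l + 1 := by
    intro x
    simp only [Pi.add_apply, mul_add, sum_add_distrib]
    congr 1
    rw [sum_eq_single i]
    · rw [Pi.single_eq_same, hi1, mul_one]
    · intro j _ hj
      rw [Pi.single_eq_of_ne hj, mul_zero]
    · intro h
      exact absurd (mem_univ i) h
  have hinv : ∀ x : I → ZMod 2, x + (Pi.single i 1 : I → ZMod 2) + Pi.single i 1 = x := by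
    intro x
    funext j
    simp only [Pi.add_apply, add_assoc, z2, add_zero]
  have h1 : (univ.filter fun x : I → ZMod 2 => ∑ l, f l * x l = 0).card =
      (univ.filter fun x : I → ZMod 2 => ¬ ∑ l, f l * x l = 0).card := by
    refine card_bij (fun x _ => x + Pi.single i 1) ?_ ?_ ?_
    · intro x hx
      rw [mem_filter] at hx ⊢
      refine ⟨mem_univ _, ?_⟩
      rw [hsum, hx.2]
      decide
    · intro x _ y _ h
      exact add_right_cancel h
    · intro y hy
      rw [mem_filter] at hy
      refine ⟨y + Pi.single i 1, ?_, hinv y⟩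
      rw [mem_filter]
      refine ⟨mem_univ _, ?_⟩
      rw [hsum]
      rcases zc (∑ l, f l * y l) with h | h
      · exact absurd h hy.2
      · rw [h]; decide
  have h2 := card_filter_add_card_filter_not (s := (univ : Finset (I → ZMod 2)))
    (fun x : I → ZMod 2 => ∑ l, f l * x l = 0)
  rw [← h1, card_univ, Fintype.card_fun, ZMod.card] at h2
  omega

theorem card_ker_one (j : I) :
    2 * (univ.filter fun x : I → ZMod 2 => ∑ l, x l = 0).card = 2 ^ Fintype.card I := by
  have h := card_ker (fun _ : I => (1 : ZMod 2)) (fun h => one_ne_zero (congrFun h j))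
  rw [← h]
  congr 2
  ext x
  simp only [mem_filter, mem_univ, true_and, one_mul]

end gen

variable {U J : Type} [Fintype U] [Fintype J]

theorem rowG_add (N : U ⊕ J → U ⊕ J → ZMod 2) (R : J → J → ZMod 2) (x y : U ⊕ J → ZMod 2) :
    rowG N R (x + y) = rowG N R x + rowG N R y := by
  funext k
  cases k with
  | inl u => simp only [rowG, Pi.add_apply, mul_add, sum_add_distrib]
  | inr k =>
    simp only [rowG, Pi.add_apply, mul_add, sum_add_distrib]
    ring

theorem rowG_zero (N : U ⊕ J → U ⊕ J → ZMod 2) (R : J → J → ZMod 2) :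
    rowG N R 0 = 0 := by
  funext k
  cases k <;> simp [rowG]

theorem onev_one : onev (U := U) (J := J) (fun _ => 1) = fun _ => 1 := by
  funext l
  cases l <;> rfl

theorem rowG_one {N : U ⊕ J → U ⊕ J → ZMod 2} {t a b : J → ZMod 2}
    (H : HypG (fun _ => 1) N t a b) (R : J → J → ZMod 2) : rowG N R (fun _ => 1) = 0 := by
  have h := H.right
  rw [onev_one] at h
  funext k
  cases k with
  | inl u => exact h (Sum.inl u)
  | inr k =>
    have h1 := h (Sum.inr k)
    simp only [rowG, h1, z2, mul_zero, sum_const_zero, zero_add, Pi.zero_apply]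

/-- the sum of the values of the random part -/
theorem sum_ext [LinearOrder J] (t : J → ZMod 2) (α : prs J → ZMod 2) (x : J → ZMod 2) :
    ∑ k, ∑ l, ext t α k l * (x k + x l) = ∑ l, t l * (∑ j, t j + 1) * x l := by
  -- symmetrise
  have hdiag : ∀ k, ext t α k k * (x k + x k) = 0 := fun k => by rw [z2, mul_zero]
  have h1 : ∑ k, ∑ l, ext t α k l * (x k + x l) =
      ∑ e ∈ prs J, (ext t α e.1 e.2 * (x e.1 + x e.2) + ext t α e.2 e.1 * (x e.1 + x e.2)) := by
    rw [← sum_product']
    have hsplit : (univ ×ˢ univ : Finset (J × J)) = (univ.filter fun e : J × J => e.1 < e.2) ∪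
        ((univ.filter fun e : J × J => e.2 < e.1) ∪ (univ.filter fun e : J × J => e.1 = e.2)) := by
      ext e
      simp only [mem_product, mem_univ, mem_union, mem_filter, true_and, true_iff, and_self]
      rcases lt_trichotomy e.1 e.2 with h | h | h
      · exact Or.inl h
      · exact Or.inr (Or.inr h)
      · exact Or.inr (Or.inl h)
    rw [hsplit, sum_union, sum_union]
    · have e3 : ∑ e ∈ univ.filter (fun e : J × J => e.1 = e.2), ext t α e.1 e.2 * (x e.1 + x e.2) =
          0 := by
        refine sum_eq_zero fun e he => ?_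
        rw [(mem_filter.1 he).2]
        exact hdiag _
      have e2 : ∑ e ∈ univ.filter (fun e : J × J => e.2 < e.1), ext t α e.1 e.2 * (x e.1 + x e.2) =
          ∑ e ∈ univ.filter (fun e : J × J => e.1 < e.2), ext t α e.2 e.1 * (x e.1 + x e.2) := by
        refine sum_bij (fun e _ => (e.2, e.1)) ?_ ?_ ?_ ?_
        · intro e he
          rw [mem_filter] at he ⊢
          exact ⟨mem_univ _, he.2⟩
        · intro e _ e' _ h
          rw [Prod.mk.injEq] at h
          exact Prod.ext h.2 h.1
        · intro e he
          exact ⟨(e.2, e.1), by rw [mem_filter] at he ⊢; exact ⟨mem_univ _, he.2⟩, rfl⟩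
        · intro e _
          rw [add_comm (x e.1)]
      rw [e3, e2, add_zero, ← sum_add_distrib]
      rfl
    · rw [disjoint_left]
      intro e h1 h2
      rw [mem_filter] at h1 h2
      exact absurd h2.2 (ne_of_lt h1.2).symm
    · rw [disjoint_left]
      intro e h1 h2
      rw [mem_union, mem_filter, mem_filter] at h2
      rw [mem_filter] at h1
      rcases h2 with h2 | h2
      · exact absurd h2.2 (not_lt.2 h1.2.le)
      · exact absurd h2.2 (ne_of_lt h1.2)
  have h2 : ∑ e ∈ prs J, (ext t α e.1 e.2 * (x e.1 + x e.2) + ext t α e.2 e.1 * (x e.1 + x e.2)) =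
      ∑ e ∈ prs J, (t e.1 * t e.2 * x e.1 + t e.1 * t e.2 * x e.2) := by
    refine sum_congr rfl fun e he => ?_
    have hne : e.1 ≠ e.2 := ne_of_lt (by
      have : e ∈ prs J := he
      unfold prs at this
      exact (mem_filter.1 this).2)
    rw [← add_mul, LAS_ext_add t α e.1 e.2 hne, mul_add]
  -- the same for the product matrix
  have h3 : ∑ e ∈ prs J, (t e.1 * t e.2 * x e.1 + t e.1 * t e.2 * x e.2) =
      ∑ l, t l * (∑ j, t j + 1) * x l := by
    have e1 : ∑ e ∈ prs J, (t e.1 * t e.2 * x e.1 + t e.1 * t e.2 * x e.2) =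
        ∑ e ∈ (univ : Finset (J × J)).filter (fun e => e.1 ≠ e.2), t e.1 * t e.2 * x e.2 := by
      have hs : (univ : Finset (J × J)).filter (fun e => e.1 ≠ e.2) =
          (univ.filter fun e : J × J => e.1 < e.2) ∪ (univ.filter fun e : J × J => e.2 < e.1) := by
        ext e
        simp only [mem_filter, mem_univ, true_and, mem_union]
        exact ne_iff_lt_or_gt
      rw [hs, sum_union]
      · have e2 : ∑ e ∈ univ.filter (fun e : J × J => e.2 < e.1), t e.1 * t e.2 * x e.2 =
            ∑ e ∈ univ.filter (fun e : J × J => e.1 < e.2), t e.1 * t e.2 * x e.1 := by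
          refine sum_bij (fun e _ => (e.2, e.1)) ?_ ?_ ?_ ?_
          · intro e he
            rw [mem_filter] at he ⊢
            exact ⟨mem_univ _, he.2⟩
          · intro e _ e' _ h
            rw [Prod.mk.injEq] at h
            exact Prod.ext h.2 h.1
          · intro e he
            exact ⟨(e.2, e.1), by rw [mem_filter] at he ⊢; exact ⟨mem_univ _, he.2⟩, rfl⟩
          · intro e _
            ring
        rw [e2, ← sum_add_distrib]
        refine sum_congr rfl fun e _ => ?_
        ring
      · rw [disjoint_left]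
        intro e h1 h2
        rw [mem_filter] at h1 h2
        exact absurd h2.2 (not_lt.2 h1.2.le)
    rw [e1]
    have e4 : ∑ e ∈ (univ : Finset (J × J)).filter (fun e => e.1 ≠ e.2), t e.1 * t e.2 * x e.2 =
        ∑ e : J × J, (t e.1 * t e.2 * x e.2 + if e.1 = e.2 then t e.1 * t e.2 * x e.2 else 0) := by
      rw [sum_filter]
      refine sum_congr rfl fun e _ => ?_
      by_cases h : e.1 = e.2
      · rw [if_neg (not_not.2 h), if_pos h, z2]
      · rw [if_pos h, if_neg h, add_zero]
    rw [e4, Fintype.sum_prod_type_right]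
    refine sum_congr rfl fun l _ => ?_
    rw [sum_add_distrib]
    simp only
    rw [sum_ite_eq' univ l, if_pos (mem_univ l), z2m, ← sum_mul, ← sum_mul]
    ring
  rw [h1, h2, h3]

/-- the values of the system have the sum zero -/
theorem sum_rowG [LinearOrder J] {N : U ⊕ J → U ⊕ J → ZMod 2} {t a b : J → ZMod 2}
    (H : HypG (fun _ => 1) N t a b) (α : prs J → ZMod 2) (x : U ⊕ J → ZMod 2) :
    ∑ k, rowG N (ext t α) x k = 0 := by
  have hU := H.leftU
  have hJ := H.leftJ
  rw [onev_one] at hU hJ
  simp only [one_mul] at hU hJ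
  have h1 : ∑ k, rowG N (ext t α) x k = ∑ k, ∑ l, N k l * x l +
      ∑ k, ∑ l, ext t α k l * (x (Sum.inr k) + x (Sum.inr l)) := by
    rw [Fintype.sum_sum_type, Fintype.sum_sum_type (fun k => ∑ l, N k l * x l)]
    simp only [rowG, sum_add_distrib]
    ring
  have h2 : ∑ k, ∑ l, N k l * x l = ∑ l, t l * (∑ j, t j + 1) * x (Sum.inr l) := by
    rw [sum_comm, Fintype.sum_sum_type]
    simp only [← sum_mul, hU, hJ, zero_mul, sum_const_zero, zero_add]
  rw [h1, h2, sum_ext t α (fun k => x (Sum.inr k)), z2]

/-- the bordered system -/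
theorem gdG_iff (f : U ⊕ J → ZMod 2) (N : U ⊕ J → U ⊕ J → ZMod 2) (w : U ⊕ J → ZMod 2)
    (R : J → J → ZMod 2) :
    GdG on3 (NC N f w) R ↔ ∀ (x : U ⊕ J → ZMod 2) (y : ZMod 2), ∑ l, f l * x l = 0 →
      (∀ k, rowG N R x k + y * w k = 0) → (x = 0 ∨ x = fun _ => 1) ∧ y = 0 := by
  constructor
  · intro H x y hx hxy
    have hio : ∀ p, (Sum.elim (fun o : Option U => o.elim y fun u => x (Sum.inl u))
        fun j => x (Sum.inr j)) (io p) = x p := by
      intro p; cases p <;> rfl
    have hio' : (fun p : U ⊕ J => (Sum.elim (fun o : Option U => o.elim y fun u => x (Sum.inl u))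
        fun j => x (Sum.inr j)) (io p)) = x := funext hio
    have hall : ∀ p : U ⊕ J, rowG (NC N f w) R
        (Sum.elim (fun o : Option U => o.elim y fun u => x (Sum.inl u))
        fun j => x (Sum.inr j)) (io p) = 0 := by
      intro p
      rw [rowG_NC, hio']
      exact hxy p
    have h := H (Sum.elim (fun o => o.elim y fun u => x (Sum.inl u)) fun j => x (Sum.inr j)) (by
      intro k
      rcases k with (_ | u) | j
      · rw [rowG_NC_n, hio']
        exact hx
      · exact hall (Sum.inl u)
      · exact hall (Sum.inr j))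
    rcases h with h | h
    · refine ⟨Or.inl ?_, ?_⟩
      · funext p
        rw [← hio p, h]
        rfl
      · exact congrFun h (Sum.inl none)
    · refine ⟨Or.inr ?_, ?_⟩
      · funext p
        rw [← hio p, h, onev3]
      · exact congrFun h (Sum.inl none)
  · intro H x hx
    have h1 : ∑ l, f l * x (io l) = 0 := by
      have := hx (Sum.inl none)
      rwa [rowG_NC_n] at this
    obtain ⟨h2, h3⟩ := H (fun p => x (io p)) (x (Sum.inl none)) h1 (by
      intro p
      have h2 := hx (io p)
      rwa [rowG_NC] at h2)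
    rcases h2 with h2 | h2
    · left
      funext k
      rcases k with (_ | u) | j
      · exact h3
      · exact congrFun h2 (Sum.inl u)
      · exact congrFun h2 (Sum.inr j)
    · right
      funext k
      rcases k with (_ | u) | j
      · exact h3
      · exact congrFun h2 (Sum.inl u)
      · exact congrFun h2 (Sum.inr j)

/-- the conditions for the bordered matrix -/
theorem hypG_w {f : U ⊕ J → ZMod 2} {N : U ⊕ J → U ⊕ J → ZMod 2} {t a b : J → ZMod 2}
    (H : HypF f N t a b) (w : U ⊕ J → ZMod 2) (hw : ∑ l, w l = 0)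
    (hw2 : ¬ ∃ c : U → ZMod 2, ∀ k : J, w (Sum.inr k) = ∑ u, N (Sum.inr k) (Sum.inl u) * c u) :
    HypG on3 (NC N f w) t a b := by
  have hone : ∀ l, onev (U := U) (J := J) (fun _ => 1) l = 1 := by
    intro l; cases l <;> rfl
  refine ⟨?_, ?_, ?_, ?_, ?_, ?_⟩
  · intro k
    rw [sum_io]
    simp only [onev3, onev3n, mul_zero, mul_one, zero_add]
    rcases k with (_ | u) | j
    · simp only [NC_n0]
      exact H.orth
    · have h := H.base.right (Sum.inl u)
      simp only [hone, mul_one] at h
      have h2 := fun q => NC_io N f w (Sum.inl u) q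
      rw [← h]
      exact sum_congr rfl fun q _ => h2 q
    · have h := H.base.right (Sum.inr j)
      simp only [hone, mul_one] at h
      have h2 := fun q => NC_io N f w (Sum.inr j) q
      rw [← h]
      exact sum_congr rfl fun q _ => h2 q
  · intro u
    rw [sum_io]
    simp only [onev3, onev3n, one_mul, zero_mul, zero_add]
    rcases u with _ | u
    · simp only [NC_0n]
      exact hw
    · have h := H.base.leftU u
      simp only [hone, one_mul] at h
      rw [← h]
      exact sum_congr rfl fun q _ => NC_io N _ _ q (Sum.inl u)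
  · intro l
    rw [sum_io]
    simp only [onev3, onev3n, one_mul, zero_mul, zero_add]
    have h := H.base.leftJ l
    simp only [hone, one_mul] at h
    rw [← h]
    exact sum_congr rfl fun q _ => NC_io N _ _ q (Sum.inr l)
  · exact fun k l hkl => H.base.alt k l hkl
  · intro v hv
    obtain ⟨l, hl⟩ := H.rowsF (fun u => v (some u)) (v none) (by
      by_cases hz : (fun u => v (some u)) = (0 : U → ZMod 2)
      · right
        intro hn
        apply hv
        funext o
        cases o with
        | none => exact hn
        | some u => exact congrFun hz u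
      · exact Or.inl hz)
    refine ⟨l, ?_⟩
    rw [Fintype.sum_option]
    have e1 : v none * NC N f w (Sum.inl none) (Sum.inr l) +
        ∑ u, v (some u) * NC N f w (Sum.inl (some u)) (Sum.inr l) =
        ∑ u, v (some u) * N (Sum.inl u) (Sum.inr l) + v none * f (Sum.inr l) := by
      simp only [NC]
      ring
    rw [e1]
    exact hl
  · intro c hc
    have key : ∀ k, ∑ u, NC N f w (Sum.inr k) (Sum.inl u) * c u =
        w (Sum.inr k) * c none + ∑ u, N (Sum.inr k) (Sum.inl u) * c (some u) := by
      intro k
      rw [Fintype.sum_option]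
      simp only [NC]
    rcases zc (c none) with h0 | h1
    · obtain ⟨k, hk⟩ := H.base.cols (fun u => c (some u)) (by
        intro hz
        apply hc
        funext o
        cases o with
        | none => exact h0
        | some u => exact congrFun hz u)
      refine ⟨k, ?_⟩
      rw [key, h0, mul_zero, zero_add]
      exact hk
    · by_contra hcon
      push Not at hcon
      apply hw2
      refine ⟨fun u => c (some u), fun k => ?_⟩
      have h2 := hcon k
      rw [key, h1, mul_one] at h2
      exact z2e h2

/-- the number of the bad columns -/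
theorem card_bad (N : U ⊕ J → U ⊕ J → ZMod 2) (Bd : Finset (U ⊕ J → ZMod 2))
    (hBd : ∀ w ∈ Bd, ∃ c : U → ZMod 2, ∀ k : J,
      w (Sum.inr k) = ∑ u, N (Sum.inr k) (Sum.inl u) * c u) :
    Bd.card ≤ 2 ^ (2 * Fintype.card U) := by
  have h1 : Bd ⊆ (univ : Finset ((U → ZMod 2) × (U → ZMod 2))).image fun e =>
        (Sum.elim e.1 fun k => ∑ u, N (Sum.inr k) (Sum.inl u) * e.2 u : U ⊕ J → ZMod 2) := by
    intro w hw
    obtain ⟨c, hc⟩ := hBd w hw
    rw [mem_image]
    refine ⟨(fun u => w (Sum.inl u), c), mem_univ _, ?_⟩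
    funext l
    cases l with
    | inl u => rfl
    | inr k => exact (hc k).symm
  refine (card_le_card h1).trans (card_image_le.trans ?_)
  rw [card_univ, Fintype.card_prod, Fintype.card_fun, ZMod.card, two_mul, pow_add]

/-- the number of the columns for which the bordered system is good -/
theorem card_good [LinearOrder J] {f : U ⊕ J → ZMod 2} {N : U ⊕ J → U ⊕ J → ZMod 2}
    {t a b : J → ZMod 2} (H : HypF f N t a b) (α : prs J → ZMod 2) (hJ : Nonempty J) :
    4 * ((univ.filter fun w : U ⊕ J → ZMod 2 => ∑ l, w l = 0).filter fun w =>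
      GdG on3 (NC N f w) (ext t α)).card =
      if GdF f N (ext t α) then 2 ^ (Fintype.card U + Fintype.card J) else 0 := by
  split_ifs with hG
  · -- the image
    have hf : f ≠ 0 := by
      intro h
      obtain ⟨l, hl⟩ := H.rowsF 0 1 (Or.inr one_ne_zero)
      apply hl
      rw [h]
      simp
    have h1 : (1 : U ⊕ J → ZMod 2) ≠ 0 := by
      obtain ⟨j⟩ := hJ
      intro h
      exact one_ne_zero (congrFun h (Sum.inr j))
    set T : (U ⊕ J → ZMod 2) → U ⊕ J → ZMod 2 := fun x => rowG N (ext t α) x with hT
    set F0 : Finset (U ⊕ J → ZMod 2) := univ.filter fun x => ∑ l, f l * x l = 0 with hF0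
    set W : Finset (U ⊕ J → ZMod 2) := univ.filter fun w => ∑ l, w l = 0 with hWdef
    have hW : 2 * W.card = 2 ^ Fintype.card (U ⊕ J) := by
      rw [hWdef]
      exact (congrArg (2 * ·) (fcc _ _ _ _ _)).trans (card_ker_one (I := U ⊕ J) (Sum.inr hJ.some))
    have hF : 2 * F0.card = 2 ^ Fintype.card (U ⊕ J) := by
      rw [hF0]
      exact (congrArg (2 * ·) (fcc _ _ _ _ _)).trans (card_ker f hf)
    rw [Fintype.card_sum] at hW hF
    have hone : (fun _ => 1 : U ⊕ J → ZMod 2) ∈ F0 := by
      rw [hF0, mem_filter]
      refine ⟨mem_univ _, ?_⟩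
      simp only [mul_one]
      exact H.orth
    have hTadd : ∀ x y, T (x + y) = T x + T y := fun x y => rowG_add N _ x y
    have hT1 : T (fun _ => 1) = 0 := rowG_one H.base _
    have hIm : F0.card = 2 * (F0.image T).card := by
      rw [card_eq_sum_card_fiberwise (f := T) (t := F0.image T)
        (fun x hx => mem_coe.2 (mem_image_of_mem T (mem_coe.1 hx)))]
      rw [mul_comm, ← smul_eq_mul, ← sum_const]
      refine sum_congr rfl fun w hw => ?_
      obtain ⟨x, hx, rfl⟩ := mem_image.1 hw
      have hfib : (F0.filter fun y => T y = T x) = {x, x + fun _ => 1} := by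
        ext y
        rw [mem_filter, mem_insert, mem_singleton]
        constructor
        · rintro ⟨hy, hyx⟩
          have h2 : ∑ l, f l * (x + y) l = 0 := by
            simp only [Pi.add_apply, mul_add, sum_add_distrib]
            rw [(mem_filter.1 hx).2, (mem_filter.1 hy).2, add_zero]
          have h3 : ∀ k, rowG N (ext t α) (x + y) k = 0 := by
            intro k
            have h4 : T (x + y) = 0 := by
              rw [hTadd, hyx]
              funext k
              exact z2 _
            exact congrFun h4 k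
          rcases hG (x + y) h2 h3 with h4 | h4
          · left
            funext l
            exact (z2e (congrFun h4 l)).symm
          · right
            funext l
            have h5 := congrFun h4 l
            simp only [Pi.add_apply] at h5 ⊢
            rw [← h5]
            have := z2 (x l)
            linear_combination (-1 : ZMod 2) * this
        · rintro (rfl | rfl)
          · exact ⟨hx, rfl⟩
          · refine ⟨?_, ?_⟩
            · rw [hF0, mem_filter]
              refine ⟨mem_univ _, ?_⟩
              simp only [Pi.add_apply, mul_add, sum_add_distrib]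
              rw [(mem_filter.1 hx).2, zero_add]
              exact (mem_filter.1 hone).2
            · rw [hTadd, hT1, add_zero]
      rw [hfib]
      apply card_pair
      intro h
      apply h1
      funext l
      have h5 := congrFun h l
      simp only [Pi.add_apply] at h5
      have : (1 : ZMod 2) = 0 := by linear_combination (-1 : ZMod 2) * h5
      exact this
    have hsub : F0.image T ⊆ W := by
      intro w hw
      obtain ⟨x, -, rfl⟩ := mem_image.1 hw
      rw [hWdef, mem_filter]
      exact ⟨mem_univ _, sum_rowG H.base α x⟩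
    have hgood : (W.filter fun w => GdG on3 (NC N f w) (ext t α)) = W \ F0.image T := by
      ext w
      rw [mem_filter, mem_sdiff]
      refine and_congr_right fun hw => ?_
      rw [gdG_iff]
      constructor
      · intro h hmem
        obtain ⟨x, hx, hxw⟩ := mem_image.1 hmem
        have h2 := h x 1 (mem_filter.1 hx).2 (by
          intro k
          rw [one_mul, ← hxw]
          exact z2 _)
        exact one_ne_zero h2.2
      · intro h x y hx hxy
        rcases zc y with hy | hy
        · subst hy
          refine ⟨hG x hx fun k => ?_, rfl⟩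
          have := hxy k
          rwa [zero_mul, add_zero] at this
        · exfalso
          apply h
          rw [mem_image]
          refine ⟨x, mem_filter.2 ⟨mem_univ _, hx⟩, ?_⟩
          funext k
          have := hxy k
          rw [hy, one_mul] at this
          exact z2e this
    rw [hgood, card_sdiff_of_subset hsub]
    have := card_le_card hsub
    omega
  · rw [mul_eq_zero]
    right
    rw [card_eq_zero, filter_eq_empty_iff]
    intro w _ hgd
    apply hG
    rw [gdG_iff] at hgd
    intro x hx hx2
    exact (hgd x 0 hx (fun k => by rw [zero_mul, add_zero]; exact hx2 k)).1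

theorem t_LAF : S_LAF := by
  intro hL ε hε
  obtain ⟨V₀, hV⟩ := hL (ε / 4) (by positivity)
  obtain ⟨m, hm⟩ : ∃ m : ℕ, 4 * (1 + |c2|) / 2 ^ m ≤ ε / 2 := by
    obtain ⟨m, hm⟩ := pow_unbounded_of_one_lt (4 * (1 + |c2|) / (ε / 2)) (one_lt_two (α := ℝ))
    refine ⟨m, ?_⟩
    rw [div_lt_iff₀ (by positivity)] at hm
    rw [div_le_iff₀ (by positivity)]
    linarith
  refine ⟨V₀ + 4 + m, ?_⟩
  intro U J _ _ _ f N t a b hcard H
  have hJcard : (univ.filter fun j => t j = 1).card ≤ Fintype.card J := by
    rw [← card_univ]
    exact card_filter_le _ _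
  have hJ : Nonempty J := by
    rw [← Fintype.card_pos_iff]
    omega
  set W : Finset (U ⊕ J → ZMod 2) := univ.filter fun w => ∑ l, w l = 0 with hWdef
  have hW : 2 * W.card = 2 ^ Fintype.card (U ⊕ J) := by
    rw [hWdef]
    exact (congrArg (2 * ·) (fcc _ _ _ _ _)).trans (card_ker_one (I := U ⊕ J) (Sum.inr hJ.some))
  rw [Fintype.card_sum] at hW
  set n := Fintype.card U + Fintype.card J with hn
  -- double counting
  have hdc : 4 * ∑ w ∈ W, (univ.filter fun α : prs J → ZMod 2 =>
      GdG on3 (NC N f w) (ext t α)).card =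
      2 ^ n * (univ.filter fun α : prs J → ZMod 2 => GdF f N (ext t α)).card := by
    simp only [card_filter]
    rw [sum_comm, mul_sum, mul_sum]
    refine sum_congr rfl fun α _ => ?_
    rw [← card_filter]
    have := card_good H α hJ
    rw [this]
    split_ifs <;> simp [hn]
  set T : ℝ := 2 ^ (prs J).card with hT
  have hT0 : 0 < T := by positivity
  set PF : ℝ := ((univ.filter fun α : prs J → ZMod 2 => GdF f N (ext t α)).card : ℝ) / T with hPF
  set P : (U ⊕ J → ZMod 2) → ℝ := fun w => ((univ.filter fun α : prs J → ZMod 2 =>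
      GdG on3 (NC N f w) (ext t α)).card : ℝ) / T with hP
  have hcT : ∀ (Q : (prs J → ZMod 2) → Prop), ((univ.filter fun α => Q α).card : ℝ) ≤ T := by
    intro Q
    have h1 : (univ.filter fun α => Q α).card ≤ 2 ^ (prs J).card := by
      refine (card_filter_le _ _).trans ?_
      rw [card_univ, Fintype.card_fun, ZMod.card, Fintype.card_coe]
    rw [hT]
    exact_mod_cast h1
  have hP01 : ∀ w, |P w - c2| ≤ 1 + |c2| := by
    intro w
    have h1 : |P w| ≤ 1 := by
      rw [abs_of_nonneg (by positivity)]
      rw [hP]
      simp only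
      rw [div_le_one hT0]
      exact hcT _
    calc |P w - c2| ≤ |P w| + |c2| := abs_sub _ _
      _ ≤ 1 + |c2| := by linarith
  set Bd : Finset (U ⊕ J → ZMod 2) := univ.filter fun w => ∃ c : U → ZMod 2, ∀ k : J,
      w (Sum.inr k) = ∑ u, N (Sum.inr k) (Sum.inl u) * c u with hBd
  have hPw : ∀ w ∈ W, |P w - c2| ≤ ε / 4 + if w ∈ Bd then 1 + |c2| else 0 := by
    intro w hw
    by_cases hb : w ∈ Bd
    · rw [if_pos hb]
      have := hP01 w
      linarith
    · rw [if_neg hb, add_zero]
      refine hV (Option U) J on3 (NC N f w) t a b (by rw [Fintype.card_option]; omega)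
        (hypG_w H w (mem_filter.1 hw).2 fun h => hb ?_)
      rw [hBd, mem_filter]
      exact ⟨mem_univ _, h⟩
  have hsumR : 4 * ∑ w ∈ W, P w = 2 ^ n * PF := by
    have h1 : (4 : ℝ) * ∑ w ∈ W, ((univ.filter fun α : prs J → ZMod 2 =>
        GdG on3 (NC N f w) (ext t α)).card : ℝ) =
        2 ^ n * ((univ.filter fun α : prs J → ZMod 2 => GdF f N (ext t α)).card : ℝ) := by
      exact_mod_cast hdc
    rw [hP, hPF]
    simp only [div_eq_mul_inv]
    rw [← sum_mul, ← mul_assoc, h1, mul_assoc]
  have hWR : 2 * (W.card : ℝ) = 2 ^ n := by exact_mod_cast hW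
  have hmain : 2 ^ n * (PF - 2 * c2) = 4 * ∑ w ∈ W, (P w - c2) := by
    rw [sum_sub_distrib, sum_const, nsmul_eq_mul]
    linear_combination -hsumR + (2 * c2) * hWR
  have hbound : |∑ w ∈ W, (P w - c2)| ≤ W.card * (ε / 4) + 2 ^ (2 * Fintype.card U) * (1 + |c2|) := by
    refine (abs_sum_le_sum_abs _ _).trans ((sum_le_sum hPw).trans ?_)
    rw [sum_add_distrib, sum_const, nsmul_eq_mul]
    gcongr
    rw [← sum_filter, sum_const, nsmul_eq_mul]
    gcongr
    have h1 : (W.filter fun w => w ∈ Bd).card ≤ 2 ^ (2 * Fintype.card U) :=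
      card_bad N _ fun w hw => (mem_filter.1 (mem_filter.1 hw).2).2
    exact_mod_cast h1
  have hn0 : (0 : ℝ) < 2 ^ n := by positivity
  have h5 : (2 : ℝ) ^ n * |PF - 2 * c2| ≤ 2 ^ n * ε := by
    rw [← abs_of_pos hn0, ← abs_mul, abs_of_pos hn0, hmain, abs_mul, abs_of_pos (by norm_num : (0:ℝ) < 4)]
    have h6 : (4 : ℝ) * (2 ^ (2 * Fintype.card U) * (1 + |c2|)) ≤ 2 ^ n * (ε / 2) := by
      have h7 : (2 : ℝ) ^ (2 * Fintype.card U) * 2 ^ m ≤ 2 ^ n := by
        rw [← pow_add]
        exact pow_le_pow_right₀ one_le_two (by omega)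
      rw [div_le_iff₀ (by positivity)] at hm
      have h8 : (0 : ℝ) ≤ 2 ^ (2 * Fintype.card U) := by positivity
      calc (4 : ℝ) * (2 ^ (2 * Fintype.card U) * (1 + |c2|)) =
          2 ^ (2 * Fintype.card U) * (4 * (1 + |c2|)) := by ring
        _ ≤ 2 ^ (2 * Fintype.card U) * (ε / 2 * 2 ^ m) := mul_le_mul_of_nonneg_left hm h8
        _ = (2 ^ (2 * Fintype.card U) * 2 ^ m) * (ε / 2) := by ring
        _ ≤ 2 ^ n * (ε / 2) := mul_le_mul_of_nonneg_right h7 (by positivity)
    nlinarith [hbound, h6, hWR]
  exact le_of_mul_le_mul_left h5 hn0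

end Pool.Agent.N848.SK.LAFp

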