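import Pool.Agent.N848.AW.Stm

/-!
# Project SK (helper848): Schneider's conjecture for `p = 2` over `K(√D)` and `K(√-1, √D)`

`K = ℚ(√-7)`, `D ≡ 5` modulo `8` squarefree in `RR = ℤ[w]` and prime to `√-7`. The groups
`Ш¹(O_{L,S}, ℤ_2(r))`, `L = K(√D)`, are zero for all even `r ≠ 0` if a condition `E1` on the quadratic
residue symbols of the prime divisors of `D` holds, and for all odd `r` if a condition `E2` holds. The
natural densities of `E1`, `E2`, `E1 ∧ E2` are `2 c2 = 0.577...`, `2 c2` and `3/2 c2 = 0.433...`. This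
file has the statements of the parts; the tools are those of the projects AW
(`Pool/Agent/N848/AW/Stm.lean`) and QK.
-/

set_option autoImplicit false
set_option linter.unusedVariables false

open scoped Classical

namespace Pool.Agent.N848.SK

open Finset
open Pool.Agent.Y698 Pool.Agent.Y698.SG
open Pool.Agent.Y703.CX (jj XX eL zz kk)
open Pool.Agent.R426.QK
open Pool.Agent.R426
open Pool.Agent.N848.AW

/-! ### Events -/

/-- the type of the conditions on a finite set with labels `t`, `g`, `h` and symbols `A` -/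
abbrev Evt : Type 1 := ∀ V : Type, Finset V → (V → V → ZMod 2) → (V → ZMod 2) → (V → ZMod 2) →
  (V → ZMod 2) → Prop

/-- the condition for the even twists -/
def E1 : Evt := fun V S A t g h => ∀ x : V → ZMod 2, dt S t x = 0 → (∀ p ∈ S, Lp S A x p = 0) →
  Cst S x

/-- the condition for the odd twists -/
def E2 : Evt := fun V S A t g h => ∀ x : V → ZMod 2, dt S t x + dt S g x + dt S h x = 0 →
  (∀ p ∈ S, Lp S A x p + t p * dt S t x + t p * x p + t p * dt S g x = 0) → Cst S x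

/-- both conditions -/
def E3 : Evt := fun V S A t g h => E1 V S A t g h ∧ E2 V S A t g h

/-- one of the two systems of project AW has only the constant solutions -/
def EU : Evt := fun V S A t g h => GA S A t g ∨ GB S A t h

/-- invariance under relabeling; only the elements of `S` and the symbols off the diagonal matter -/
def Tr (E : Evt) : Prop := ∀ (V W : Type) [Fintype W] (S : Finset V) (φ : W → V)
  (A : V → V → ZMod 2) (M : W → W → ZMod 2) (t g h : V → ZMod 2), Function.Injective φ →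
  (∀ x, x ∈ S ↔ ∃ w, φ w = x) → (∀ v w, v ≠ w → M v w = A (φ v) (φ w)) →
  (E V S A t g h ↔ E W univ M (fun w => t (φ w)) (fun w => g (φ w)) (fun w => h (φ w)))

/-- SK-TRE -/
def S_TRE : Prop := Tr E1 ∧ Tr E2

/-- SK-IFF: linear algebra -/
def S_IFF : Prop := ∀ (V : Type) (S : Finset V) (A : V → V → ZMod 2) (t g h : V → ZMod 2),
  Hyp S A t g h → (E3 V S A t g h ↔ EU V S A t g h)

/-- the law of the event: its probability is close to `θ` -/
def LawE (E : Evt) (θ ε : ℝ) (V : ℕ) : Prop := ∀ (U J : Type) [Fintype U] [Fintype J]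
  [LinearOrder J] (tU gU hU : U → ZMod 2) (tJ gJ hJ : J → ZMod 2) (A : U → U → ZMod 2)
  (B : U → J → ZMod 2),
  4 * Fintype.card U + V ≤ (univ.filter fun j => tJ j = 1).card →
  ∑ u, tU u + ∑ j, tJ j = 0 → ∑ u, gU u + ∑ j, gJ j = 1 → ∑ u, hU u + ∑ j, hJ j = 1 →
  (∀ u v, u ≠ v → A u v + A v u = tU u * tU v) → NdL tJ gJ hJ B →
  |((univ.filter fun α : prs J → ZMod 2 =>
      E (U ⊕ J) univ (MM tU tJ A B (ext tJ α)) (Sum.elim tU tJ) (Sum.elim gU gJ)
        (Sum.elim hU hJ)).card : ℝ) / 2 ^ (prs J).card - θ| ≤ ε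

/-- the law of the event, as a limit -/
def Law (E : Evt) (θ : ℝ) : Prop := ∀ ε : ℝ, 0 < ε → ∃ V : ℕ, LawE E θ ε V

/-- SK-LU: the law of `EU` -/
def S_LU : Prop := S_XOR → S_LAG → Law EU (3 / 2 * c2)

/-! ### One more equation -/

section one

variable {U J : Type} [Fintype U] [Fintype J]

/-- the only solutions of the system which are orthogonal to `f` are zero and the constant one -/
def GdF (f : U ⊕ J → ZMod 2) (N : U ⊕ J → U ⊕ J → ZMod 2) (R : J → J → ZMod 2) : Prop :=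
  ∀ x : U ⊕ J → ZMod 2, ∑ l, f l * x l = 0 → (∀ k, rowG N R x k = 0) → x = 0 ∨ x = fun _ => 1

/-- the conditions on the fixed part -/
structure HypF (f : U ⊕ J → ZMod 2) (N : U ⊕ J → U ⊕ J → ZMod 2) (t a b : J → ZMod 2) :
    Prop where
  base : HypG (fun _ => 1) N t a b
  orth : ∑ l, f l = 0
  rowsF : ∀ (w : U → ZMod 2) (e : ZMod 2), (w ≠ 0 ∨ e ≠ 0) →
    ∃ l : J, ∑ u, w u * N (Sum.inl u) (Sum.inr l) + e * f (Sum.inr l) ≠ 0

end one

/-- the law with one more equation -/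
def LAFE (ε : ℝ) (V : ℕ) : Prop := ∀ (U J : Type) [Fintype U] [Fintype J] [LinearOrder J]
  (f : U ⊕ J → ZMod 2) (N : U ⊕ J → U ⊕ J → ZMod 2) (t a b : J → ZMod 2),
  4 * Fintype.card U + V ≤ (univ.filter fun j => t j = 1).card → HypF f N t a b →
  |((univ.filter fun α : prs J → ZMod 2 => GdF f N (ext t α)).card : ℝ) /
      2 ^ (prs J).card - 2 * c2| ≤ ε

/-- SK-LAF: the general law with one more equation, from the general law of project AW by averaging
over the last column of the bordered matrix -/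
def S_LAF : Prop := S_LAG → ∀ ε : ℝ, 0 < ε → ∃ V : ℕ, LAFE ε V

/-- SK-L12: the laws of `E1` and `E2` -/
def S_L12 : Prop := (∀ ε : ℝ, 0 < ε → ∃ V : ℕ, LAFE ε V) → Law E1 (2 * c2) ∧ Law E2 (2 * c2)

/-! ### Boxes and asymptotics -/

/-- the event for a set of primes -/
def ev (E : Evt) (S : Finset RR) : Prop := E RR S cA tt gg hh

/-- the estimate of the sum over the boxes (the same as `AW.AsyG.KeyG`) -/
def KeyE (G : Finset RR → Prop) (c : ℝ) : Prop := ∃ C : ℝ, 1 ≤ C ∧
  ∀ ε : ℝ, 0 < ε → ∃ V : ℕ,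
  ∀ (X z H k N : ℕ) (κ : ℝ), 1 ≤ X → 1 ≤ H → 1 ≤ z → 0 ≤ κ → C ≤ κ ^ 24 * z →
  (H : ℝ) * Real.log X < N →
  |(((Rg X z H k V).filter fun S => Nd5 (sm z S) (la z S) ∧ G S).card : ℝ) -
      c * (((Rg X z H k V).filter fun S => Nd5 (sm z S) (la z S)).card : ℝ)| ≤
    ε * ((Rg X z H k V).card : ℝ) +
    (9 * N + 9 : ℝ) ^ k * (3 ^ (9 * k ^ 2 + 9) * κ) * (X * (1 + Real.log X))

/-- SK-KEY: the count in a box and the sum over the boxes, for every event (port of
`N615/AW/BOX.lean` and `N615/AW/KEY.lean`) -/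
def S_KEYE : Prop := RecP → S_BIL → S_EQ → ∀ (E : Evt) (θ : ℝ), Tr E → Law E θ → KeyE (ev E) θ

/-- SK-NSG: the translation to the elements, for every condition on the sets (port of the end of
`N763/AW/Cls.lean`) -/
def S_NSG : Prop := S_CLS → ∀ (G : Finset RR → Prop) (θ : ℝ),
  Filter.Tendsto (fun X : ℕ => (((S5 X).filter G).card : ℝ) / ((S5 X).card : ℝ)) Filter.atTop
    (nhds θ) →
  Filter.Tendsto (fun X : ℕ => ({D : RR | nrm D ≤ X ∧ Cls5 D ∧ G (QK.PD D)}.ncard : ℝ) /
    ({D : RR | nrm D ≤ X ∧ Cls5 D}.ncard : ℝ)) Filter.atTop (nhds θ)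

/-! ### The arithmetic condition -/

/-- squares modulo `π` -/
def Sqr (π x : RR) : Prop := ∃ y : RR, π ∣ x - y ^ 2

/-- the condition: the only factorizations `m = a b` such that `a` is `1` or `m` modulo the cubes of
the two primes above `2`, `a` is a square modulo the prime divisors of `b` and conversely, are the
trivial ones -/
def Cond (m : RR) : Prop := ∀ a b : RR, m = a * b →
  (aR ^ 3 ∣ a - 1 ∨ aR ^ 3 ∣ a - m) → ((cj aR) ^ 3 ∣ a - 1 ∨ (cj aR) ^ 3 ∣ a - m) →
  (∀ π, Prime π → (π ∣ b → Sqr π a) ∧ (π ∣ a → Sqr π b)) → a = 1 ∨ a = m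

/-- SK-CR1: the condition for `m = D` -/
def S_CR1 : Prop := RecP → S_SUP → S_CLS → ∀ D : RR, Cls5 D → (Cond D ↔ ev E1 (QK.PD D))

/-- SK-CR2: the condition for `m = -D` -/
def S_CR2 : Prop := RecP → S_SUP → S_CLS → ∀ D : RR, Cls5 D → (Cond (-D) ↔ ev E2 (QK.PD D))

/-- FINAL: the natural densities -/
def S_DENS : Prop := ∀ (P : RR → Prop) (θ : ℝ),
  ((P = fun D => Cond D) ∧ θ = 2 * c2 ∨ (P = fun D => Cond (-D)) ∧ θ = 2 * c2 ∨
    (P = fun D => Cond D ∧ Cond (-D)) ∧ θ = 3 / 2 * c2) →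
  Filter.Tendsto (fun X : ℕ => ({D : RR | nrm D ≤ X ∧ Cls5 D ∧ P D}.ncard : ℝ) /
    ({D : RR | nrm D ≤ X ∧ Cls5 D}.ncard : ℝ)) Filter.atTop (nhds θ)

end Pool.Agent.N848.SK
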