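import Pool.Agent.N848.AW.Den
import Pool.Agent.N848.SK.Stm
import Pool.Agent.N749.SK.Key
import Pool.Agent.N265.SK.Lu
import Pool.Agent.N848.SK.LAF
import Pool.Agent.N82.SK.L12
import Pool.Agent.N413.SK.IFF
import Pool.Agent.N364.SK.TRE
import Pool.Agent.N163.SK.NSG
import Pool.Agent.N765.SK.Cr2
import Pool.Agent.N499.SK.CR1

/-!
# Project SK: the assembly of the density theorem

The parts are by helpers 364 (TRE), 413 (IFF), 265 (LU), 618 (LAF), 82 (L12), 749 (KEY), 163 (NSG),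
765 (CR2) and 499 (CR1), after project AW.
-/

set_option autoImplicit false
set_option linter.unusedVariables false

open scoped Classical

namespace Pool.Agent.N848.SK

open Finset
open Pool.Agent.Y698 Pool.Agent.Y698.SG
open Pool.Agent.R426.QK
open Pool.Agent.R426
open Pool.Agent.N848.AW

theorem law12 : Law E1 (2 * c2) ∧ Law E2 (2 * c2) :=
  Pool.Agent.N82.SK.t_L12 (Pool.Agent.N848.SK.LAFp.t_LAF t_LAG)

theorem lawU : Law EU (3 / 2 * c2) := Pool.Agent.N848.AW.LU265.t_LU XT.t_XOR t_LAG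

/-- the law of both conditions -/
theorem law3 : Law E3 (3 / 2 * c2) := by
  intro ε hε
  obtain ⟨V, hV⟩ := lawU ε hε
  refine ⟨V, ?_⟩
  intro U J _ _ _ tU gU hU tJ gJ hJ A B hcard h0 hg hh hA hnd
  have key : ∀ α : prs J → ZMod 2, (E3 (U ⊕ J) univ (MM tU tJ A B (ext tJ α)) (Sum.elim tU tJ)
      (Sum.elim gU gJ) (Sum.elim hU hJ) ↔ EU (U ⊕ J) univ (MM tU tJ A B (ext tJ α))
      (Sum.elim tU tJ) (Sum.elim gU gJ) (Sum.elim hU hJ)) := by
    intro α
    refine Pool.Agent.N413.SK.IFF.t_IFF _ _ _ _ _ _ ⟨?_, ?_, ?_, ?_⟩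
    · intro p _ q _ hpq
      rcases p with u | k <;> rcases q with v | l
      · simp only [MM, Sum.elim_inl]
        exact hA u v (fun h => hpq (by rw [h]))
      · simp only [MM, Sum.elim_inl, Sum.elim_inr]
        have := LAS.z2 (B u l)
        linear_combination this
      · simp only [MM, Sum.elim_inl, Sum.elim_inr]
        have := LAS.z2 (B v k)
        linear_combination this
      · simp only [MM, Sum.elim_inr]
        exact LAS_ext_add tJ α k l (fun h => hpq (by rw [h]))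
    · rw [Fintype.sum_sum_type]; exact h0
    · rw [Fintype.sum_sum_type]; exact hg
    · rw [Fintype.sum_sum_type]; exact hh
  have h := hV U J tU gU hU tJ gJ hJ A B hcard h0 hg hh hA hnd
  have e : (univ.filter fun α : prs J → ZMod 2 => E3 (U ⊕ J) univ (MM tU tJ A B (ext tJ α))
      (Sum.elim tU tJ) (Sum.elim gU gJ) (Sum.elim hU hJ)) =
      (univ.filter fun α : prs J → ZMod 2 => EU (U ⊕ J) univ (MM tU tJ A B (ext tJ α))
      (Sum.elim tU tJ) (Sum.elim gU gJ) (Sum.elim hU hJ)) := by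
    ext α
    rw [mem_filter, mem_filter, key α]
  rw [e]
  exact h

theorem tr12 : Tr E1 ∧ Tr E2 := Pool.Agent.N364.SK.t_TRE

theorem tr3 : Tr E3 := by
  intro V W _ S φ A M t g h hφ hS hM
  exact and_congr (tr12.1 V W S φ A M t g h hφ hS hM) (tr12.2 V W S φ A M t g h hφ hS hM)

theorem dens_ev {E : Evt} {θ : ℝ} (h0 : 0 ≤ θ) (h1 : θ ≤ 1) (hT : Tr E) (hL : Law E θ) :
    Filter.Tendsto (fun X : ℕ => ({D : RR | nrm D ≤ X ∧ Cls5 D ∧ ev E (QK.PD D)}.ncard : ℝ) /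
      ({D : RR | nrm D ≤ X ∧ Cls5 D}.ncard : ℝ)) Filter.atTop (nhds θ) :=
  Pool.Agent.N163.SK.t_NSG Pool.Agent.N763.AW.t_CLS _ _
    (AsyG.t_gen h0 h1 (Pool.Agent.N749.SK.Key.t_KEYE recP t_BIL EQ.t_EQ E θ hT hL)
      CNT.t_CNT t_BAD (FB.t_FEW t_HALL t_MERT) Pool.Agent.N34.AW.LOW.t_LOW5)

theorem c2_bd : 0 < c2 ∧ c2 < 0.289 := ⟨MOM.t_C2.2.1, MOM.t_C2.2.2.2.2⟩

/-- the conditions in terms of the symbols -/
theorem cr (D : RR) (hD : Cls5 D) :
    (Cond D ↔ ev E1 (QK.PD D)) ∧ (Cond (-D) ↔ ev E2 (QK.PD D)) :=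
  ⟨Pool.Agent.N848.AW.N499.t_CR1 recP t_SUP Pool.Agent.N763.AW.t_CLS D hD,
    Pool.Agent.N765.SK.t_CR2 recP t_SUP Pool.Agent.N763.AW.t_CLS D hD⟩

/-- **The final densities.** -/
theorem t_DENS : S_DENS := by
  obtain ⟨b1, b2⟩ := c2_bd
  have a1 := fun D hD => (cr D hD).1
  have a2 := fun D hD => (cr D hD).2
  have key : ∀ (P : RR → Prop) (E : Evt), (∀ D, Cls5 D → (P D ↔ ev E (QK.PD D))) → ∀ X : ℕ,
      {D : RR | nrm D ≤ X ∧ Cls5 D ∧ P D} = {D : RR | nrm D ≤ X ∧ Cls5 D ∧ ev E (QK.PD D)} := by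
    intro P E h X
    ext D
    simp only [Set.mem_ofPred_eq]
    constructor
    · rintro ⟨c1, c2, c3⟩
      exact ⟨c1, c2, (h D c2).1 c3⟩
    · rintro ⟨c1, c2, c3⟩
      exact ⟨c1, c2, (h D c2).2 c3⟩
  rintro P θ (⟨hP, hθ⟩ | ⟨hP, hθ⟩ | ⟨hP, hθ⟩)
  · rw [hθ]
    refine (dens_ev (by linarith) (by linarith) tr12.1 law12.1).congr fun X => ?_
    rw [key P E1 (by rw [hP]; exact a1) X]
  · rw [hθ]
    refine (dens_ev (by linarith) (by linarith) tr12.2 law12.2).congr fun X => ?_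
    rw [key P E2 (by rw [hP]; exact a2) X]
  · rw [hθ]
    refine (dens_ev (by linarith) (by linarith) tr3 law3).congr fun X => ?_
    rw [key P E3 (by
      rw [hP]
      exact fun D hD => and_congr (a1 D hD) (a2 D hD)) X]

end Pool.Agent.N848.SK
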