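import Pool.Agent.N848.SK.Chi

/-!
# Integral cocycles over the subfields of multiquadratic extensions of `ℚ(√-7)`
-/

set_option autoImplicit false
set_option linter.unusedSectionVars false

namespace Pool.Agent.N848.SK.G

open Pool.Agent.R384 hiding cyc cyc_inert
open Pool.Agent.Y715.Red Pool.Agent.Y715.Nr Pool.Agent.W237.RK
open Pool.Agent.Y715.Gi (QB KK GK i₀_mem gk_fix)
open Pool.Agent.Y715.Df (Cmp exists_cmp)
open Pool.Agent.N848.Q (cyc exists_cyc_ne exists_iota)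

/-- **From the normal subgroup `N` to `H`, with integral coefficients.** -/
theorem descendN {H N : Subgroup (QB ≃ₐ[ℚ] QB)} (hle : N ≤ H) (hn : N.Normal) {k : ℤ} (hk : k ≠ 0)
    (h4 : ∀ σ : QB ≃ₐ[ℚ] QB, (σ * σ) * (σ * σ) ∈ N) (c : ↥H → ℤ_[2])
    (mul : ∀ σ τ : H, c (σ * τ) =
      c σ + (((cyc (σ : QB ≃ₐ[ℚ] QB)) ^ k : ℤ_[2]ˣ) : ℤ_[2]) * c τ)
    (two : ∀ ι : QB →ₐ[ℚ] PadicAlgCl 2, ∃ z : ℤ_[2], ∀ σ : H,
      (σ : QB ≃ₐ[ℚ] QB) ∈ Pool.Agent.N848.Q.DD ι →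
      c σ = ((((cyc (σ : QB ≃ₐ[ℚ] QB)) ^ k : ℤ_[2]ˣ) : ℤ_[2]) - 1) * z)
    (hv : ∃ y : ℚ_[2], ∀ σ : H, (σ : QB ≃ₐ[ℚ] QB) ∈ N →
      ((c σ : ℤ_[2]) : ℚ_[2]) = (vl (cyc ^ k) (σ : QB ≃ₐ[ℚ] QB) - 1) * y) :
    ∃ z : ℤ_[2], ∀ σ : H, c σ =
      ((((cyc (σ : QB ≃ₐ[ℚ] QB)) ^ k : ℤ_[2]ˣ) : ℤ_[2]) - 1) * z := by
  classical
  set χ : (QB ≃ₐ[ℚ] QB) →* ℤ_[2]ˣ := cyc ^ k with hχ
  have hvl : ∀ σ : QB ≃ₐ[ℚ] QB, vl χ σ = ((((cyc σ) ^ k : ℤ_[2]ˣ) : ℤ_[2]) : ℚ_[2]) :=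
    fun σ => rfl
  obtain ⟨y, hy⟩ := hv
  obtain ⟨ι⟩ := exists_iota 2
  obtain ⟨z, hz⟩ := two ι
  obtain ⟨σ, h1, h3⟩ := exists_cyc_ne ι (k := 2 * k) (by omega)
  set τ : QB ≃ₐ[ℚ] QB := (σ * σ) * (σ * σ) with hτ
  have hτN : τ ∈ N := h4 σ
  have hσD : σ * σ ∈ Pool.Agent.N848.Q.DD ι := (Pool.Agent.N848.Q.DD ι).mul_mem h1 h1
  have hτD : τ ∈ Pool.Agent.N848.Q.DD ι := (Pool.Agent.N848.Q.DD ι).mul_mem hσD hσD
  have hne : vl χ τ - 1 ≠ 0 := by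
    intro h
    apply h3
    have h8 : (((((cyc τ) ^ k : ℤ_[2]ˣ) : ℤ_[2]) - 1 : ℤ_[2]) : ℚ_[2]) = 0 := by
      push_cast
      exact h
    have h9 : (((cyc τ) ^ k : ℤ_[2]ˣ) : ℤ_[2]) - 1 = 0 :=
      Subtype.ext (h8.trans PadicInt.coe_zero.symm)
    have h10 : (cyc τ) ^ k = 1 := Units.ext (sub_eq_zero.1 h9)
    have h11 : cyc τ = cyc (σ * σ) ^ (2 : ℤ) := by
      rw [hτ, map_mul, zpow_ofNat, pow_two]
    rw [h11, ← zpow_mul] at h10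
    exact h10
  have hyz : y = (z : ℚ_[2]) := by
    have h6 := hy ⟨τ, hle hτN⟩ hτN
    rw [hz ⟨τ, hle hτN⟩ hτD] at h6
    push_cast at h6
    exact (mul_left_cancel₀ hne h6).symm
  -- the extension to `H`
  have gm : ∀ σ τ : H, ((c (σ * τ) : ℤ_[2]) : ℚ_[2]) =
      ((c σ : ℤ_[2]) : ℚ_[2]) + vl χ (σ : QB ≃ₐ[ℚ] QB) * ((c τ : ℤ_[2]) : ℚ_[2]) := by
    intro σ τ
    rw [mul σ τ, hvl]
    push_cast
    rfl
  have hall : ∀ σ : H, ((c σ : ℤ_[2]) : ℚ_[2]) = (vl χ (σ : QB ≃ₐ[ℚ] QB) - 1) * y := by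
    intro σ
    have hc : (σ : QB ≃ₐ[ℚ] QB)⁻¹ * τ * (σ : QB ≃ₐ[ℚ] QB) ∈ N := by
      have := hn.conj_mem τ hτN (σ : QB ≃ₐ[ℚ] QB)⁻¹
      rwa [inv_inv] at this
    have e1 := gm ⟨τ, hle hτN⟩ σ
    have e2 := gm σ ⟨_, hle hc⟩
    have e3 : σ * (⟨_, hle hc⟩ : H) = (⟨τ, hle hτN⟩ : H) * σ := by
      apply Subtype.ext
      show (σ : QB ≃ₐ[ℚ] QB) * ((σ : QB ≃ₐ[ℚ] QB)⁻¹ * τ * (σ : QB ≃ₐ[ℚ] QB)) = τ * σ
      group
    rw [e3, e1, hy ⟨τ, hle hτN⟩ hτN, hy ⟨_, hle hc⟩ hc, Pool.Agent.N848.Q.vl_conj] at e2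
    apply mul_left_cancel₀ hne
    linear_combination e2
  refine ⟨z, fun σ => ?_⟩
  have h8 := hall σ
  rw [hyz] at h8
  have h9 : ((c σ : ℤ_[2]) : ℚ_[2]) =
      ((((((cyc (σ : QB ≃ₐ[ℚ] QB)) ^ k : ℤ_[2]ˣ) : ℤ_[2]) - 1) * z : ℤ_[2]) : ℚ_[2]) := by
    rw [h8]
    push_cast
    rfl
  exact Subtype.ext h9

section

variable {w : QB} (hw : w ^ 2 = w - 2)

/-- the automorphisms which fix `w` and all the `s i` -/
def fixG (w : QB) {n : ℕ} (s : Fin n → QB) : Subgroup (QB ≃ₐ[ℚ] QB) where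
  carrier := {σ | σ w = w ∧ ∀ i, σ (s i) = s i}
  mul_mem' := by
    intro a b ha hb
    exact ⟨by rw [AlgEquiv.mul_apply, hb.1, ha.1], fun i => by
      rw [AlgEquiv.mul_apply, hb.2 i, ha.2 i]⟩
  one_mem' := ⟨rfl, fun _ => rfl⟩
  inv_mem' := by
    intro a ha
    have key : ∀ x : QB, a x = x → a⁻¹ x = x := by
      intro x h1
      calc a⁻¹ x = a⁻¹ (a x) := by rw [h1]
        _ = x := by rw [← AlgEquiv.mul_apply, inv_mul_cancel, AlgEquiv.one_apply]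
    exact ⟨key w ha.1, fun i => key _ (ha.2 i)⟩

lemma mem_fixG {n : ℕ} {s : Fin n → QB} {σ : QB ≃ₐ[ℚ] QB} :
    σ ∈ fixG w s ↔ σ w = w ∧ ∀ i, σ (s i) = s i := Iff.rfl

/-- the automorphisms which fix `w` come from the Galois group over `K` -/
lemma exists_res {σ : QB ≃ₐ[ℚ] QB} (h : σ w = w) : ∃ τ : GK w, res w τ = σ := by
  have hfix : σ ∈ (KK w).fixingSubgroup := by
    rw [IntermediateField.mem_fixingSubgroup_iff]
    intro x hx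
    have h1 : KK w ≤ IntermediateField.fixedField (Subgroup.zpowers σ) := by
      unfold KK
      rw [IntermediateField.adjoin_le_iff]
      rintro y rfl
      rw [SetLike.mem_coe, IntermediateField.mem_fixedField_iff]
      intro τ hτ
      obtain ⟨k, rfl⟩ := hτ
      have h2 : σ ∈ MulAction.stabilizer (QB ≃ₐ[ℚ] QB) y := h
      exact (MulAction.stabilizer (QB ≃ₐ[ℚ] QB) y).zpow_mem h2 k
    exact (IntermediateField.mem_fixedField_iff _ x).1 (h1 hx) σ (Subgroup.mem_zpowers σ)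
  refine ⟨(IntermediateField.fixingSubgroupEquiv (KK w)) ⟨σ, hfix⟩, ?_⟩
  ext x
  rfl

include hw in
lemma w_or (σ : QB ≃ₐ[ℚ] QB) : σ w = w ∨ σ w = 1 - w := by
  have h1 : (σ w) ^ 2 = σ w - 2 := by rw [← map_pow, hw, map_sub, map_ofNat]
  have h2 : (σ w - w) * (σ w - (1 - w)) = 0 := by linear_combination h1 - hw
  rcases mul_eq_zero.1 h2 with h3 | h3
  · exact Or.inl (sub_eq_zero.1 h3)
  · exact Or.inr (sub_eq_zero.1 h3)

/-- **From the vanishing over `K(s_1, …, s_n)` to the integral cocycles over the subfields.** -/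
theorem shaK {n : ℕ} {s : Fin n → QB} {E : Fin n → OO} (hE : ∀ i, s i ^ 2 = em hw (E i)) {k : ℤ}
    (hk : k ≠ 0) (van : VanT hw (cK w ^ k) (fixs s Finset.univ))
    {H : Subgroup (QB ≃ₐ[ℚ] QB)} (hle : fixG w s ≤ H) (c : ↥H → ℤ_[2]) (cont : Continuous c)
    (mul : ∀ σ τ : H, c (σ * τ) =
      c σ + (((cyc (σ : QB ≃ₐ[ℚ] QB)) ^ k : ℤ_[2]ˣ) : ℤ_[2]) * c τ)
    (odd : ∀ (p : ℕ) [Fact p.Prime] (ι : QB →ₐ[ℚ] PadicAlgCl p), p ≠ 2 →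
      ∀ σ : H, (σ : QB ≃ₐ[ℚ] QB) ∈ Pool.Agent.N848.Q.II ι → c σ = 0)
    (two : ∀ ι : QB →ₐ[ℚ] PadicAlgCl 2, ∃ z : ℤ_[2], ∀ σ : H,
      (σ : QB ≃ₐ[ℚ] QB) ∈ Pool.Agent.N848.Q.DD ι →
      c σ = ((((cyc (σ : QB ≃ₐ[ℚ] QB)) ^ k : ℤ_[2]ˣ) : ℤ_[2]) - 1) * z) :
    ∃ z : ℤ_[2], ∀ σ : H, c σ =
      ((((cyc (σ : QB ≃ₐ[ℚ] QB)) ^ k : ℤ_[2]ˣ) : ℤ_[2]) - 1) * z := by
  classical
  -- the cocycle over `K`
  set c' : GK w → ℚ_[2] := fun σ => if h : res w σ ∈ H then ((c ⟨res w σ, h⟩ : ℤ_[2]) : ℚ_[2])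
    else 0 with hc'
  have hmem : ∀ σ ∈ fixs s Finset.univ, res w σ ∈ fixG w s := fun σ hσ =>
    ⟨gk_fix σ, fun i => hσ i (Finset.mem_univ i)⟩
  have hval : ∀ (σ : GK w) (h : res w σ ∈ H), c' σ = ((c ⟨res w σ, h⟩ : ℤ_[2]) : ℚ_[2]) := by
    intro σ h
    rw [hc']
    exact dif_pos h
  have hvl : ∀ σ : GK w, vl (cK w ^ k) σ =
      ((((cyc (res w σ)) ^ k : ℤ_[2]ˣ) : ℤ_[2]) : ℚ_[2]) := fun σ => rfl
  obtain ⟨y, hy⟩ := van c' ⟨by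
      rw [continuousOn_iff_continuous_domRestrict]
      have e : ((fixs (i₀ := w) s Finset.univ : Subgroup (GK w)) : Set (GK w)).domRestrict c' =
          fun σ : ((fixs (i₀ := w) s Finset.univ : Subgroup (GK w)) : Set (GK w)) =>
          ((c ⟨res w (σ : GK w), hle (hmem (σ : GK w) σ.2)⟩ : ℤ_[2]) : ℚ_[2]) := by
        funext σ
        exact hval (σ : GK w) (hle (hmem (σ : GK w) σ.2))
      rw [e]
      refine continuous_subtype_val.comp (cont.comp ?_)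
      exact Continuous.subtype_mk (res_cont.comp continuous_subtype_val) _, by
      intro σ hσ τ hτ
      have h1 := hle (hmem σ hσ)
      have h2 := hle (hmem τ hτ)
      have h3 : res w (σ * τ) ∈ H := by rw [map_mul]; exact H.mul_mem h1 h2
      have h4 := mul ⟨res w σ, h1⟩ ⟨res w τ, h2⟩
      have h5 : (⟨res w (σ * τ), h3⟩ : H) = ⟨res w σ, h1⟩ * ⟨res w τ, h2⟩ :=
        Subtype.ext (map_mul (res w) σ τ)
      rw [hval _ h3, hval _ h1, hval _ h2, h5, h4, hvl]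
      push_cast
      rfl⟩ (by
      intro p _ ι hp
      refine ⟨0, fun σ hσ h1 => ?_⟩
      have h2 := hle (hmem σ h1)
      rw [mul_zero, hval _ h2, odd p ι hp ⟨res w σ, h2⟩ (mem_QI hσ)]
      rfl) (by
      intro ι _
      obtain ⟨z, hz⟩ := two ι
      refine ⟨(z : ℚ_[2]), fun σ hσ h1 => ?_⟩
      have h2 := hle (hmem σ h1)
      obtain ⟨τ, hτ⟩ := hσ
      rw [hval _ h2, hz ⟨res w σ, h2⟩ ⟨τ, hτ⟩, hvl]
      push_cast
      rfl)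
  -- the normal subgroup
  refine descendN (N := (fixG w s).normalCore) ((Subgroup.normalCore_le _).trans hle)
    inferInstance hk ?_ c mul two ⟨y, fun σ hσ => ?_⟩
  · intro σ
    have key : ∀ g : QB ≃ₐ[ℚ] QB, (g * g) * (g * g) ∈ fixG w s := by
      intro g
      have h1 : (g * g) w = w := by
        rw [AlgEquiv.mul_apply]
        rcases w_or hw g with h | h
        · rw [h, h]
        · rw [h, map_sub, map_one, h]
          ring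
      obtain ⟨τ, hτ⟩ := exists_res h1
      refine ⟨by rw [AlgEquiv.mul_apply, h1, h1], fun i => ?_⟩
      rw [← hτ, AlgEquiv.mul_apply, res_apply, res_apply]
      rcases rt_or hw (hE i) τ with h | h
      · rw [h, h]
      · rw [h, map_neg, h, neg_neg]
    intro b
    have e : b * (σ * σ * (σ * σ)) * b⁻¹ =
        ((b * σ * b⁻¹) * (b * σ * b⁻¹)) * ((b * σ * b⁻¹) * (b * σ * b⁻¹)) := by group
    rw [e]
    exact key _
  · have h1 := Subgroup.normalCore_le _ hσ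
    obtain ⟨τ, hτ⟩ := exists_res h1.1
    have h2 : τ ∈ fixs s Finset.univ := by
      intro i _
      have h3 := h1.2 i
      rw [← hτ] at h3
      exact h3
    have h3 := hy τ h2
    have h4 : res w τ ∈ H := by rw [hτ]; exact σ.2
    rw [hval _ h4, hvl] at h3
    have h5 : (⟨res w τ, h4⟩ : H) = σ := Subtype.ext hτ
    rw [h5, hτ] at h3
    exact h3

end

end Pool.Agent.N848.SK.G
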