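import Pool.Agent.N848.AW.MainW

/-!
# The vanishing of the groups of the classes which are trivial at both places above two
-/

set_option autoImplicit false
set_option linter.unusedSectionVars false

namespace Pool.Agent.N848.SK.G

open Pool.Agent.R384
open Pool.Agent.N848.W (loc_gen seven_eq)
open Pool.Agent.N848.AW.G (cube_dvd)
open Pool.Agent.Y715.Red Pool.Agent.Y715.Nr Pool.Agent.W237.RK
open Pool.Agent.Y715.Gi (QB KK GK i₀_mem gk_fix)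
open Pool.Agent.Y715.Df (Cmp exists_cmp)
open Pool.Agent.Y715.Lc (norm_two_odd)

open scoped Classical

/-- The algebraic condition: the elements that satisfy the local conditions are `1` and `m`. -/
def AlgC (m : OO) : Prop :=
  ∀ δ : OO, Squarefree δ → ¬ om ∣ δ → ¬ (1 - om) ∣ δ → (∀ π, Prime π → π ∣ δ → π ∣ m) →
    (om ^ 3 ∣ δ - 1 ∨ om ^ 3 ∣ δ * m - 1) →
    ((1 - om) ^ 3 ∣ δ - 1 ∨ (1 - om) ^ 3 ∣ δ * m - 1) →
    (∀ π, Prime π → π ∣ m → (¬ π ∣ δ ∧ Sqm π δ) ∨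
      ∃ δ1 m1, δ = π * δ1 ∧ m = π * m1 ∧ Sqm π (δ1 * m1)) → δ = 1 ∨ δ = m

variable {i₀ : QB} (hi : i₀ ^ 2 = i₀ - 2) {χ : GK i₀ →* ℤ_[2]ˣ} {m : OO} {r : QB}

/-- an embedding in which a prime divisor of two is small -/
lemma exists_two {ϖ : OO} (hϖp : Prime ϖ) (h2 : ϖ ∣ 2) :
    ∃ ι : QB →ₐ[ℚ] PadicAlgCl 2, ‖em (iw hi ι) ϖ‖ < 1 := by
  obtain ⟨p, hpf, ι, hι⟩ := exists_emb hi hϖp
  have hp2 : p = 2 := by
    rw [ι_em] at hι
    exact (two_of_dvd hϖp (iw hi ι) hι).2 h2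
  subst hp2
  exact ⟨ι, by rwa [ι_em] at hι⟩

/-- the local condition at a prime divisor of two -/
lemma at_two (cd : ChiD hi χ m r) (h8 : (8 : OO) ∣ m - 5 ∨ (8 : OO) ∣ m + 5)
    {c' : GK i₀ → ℚ_[2]} (hint : ∀ σ, ‖c' σ‖ ≤ 1)
    (htwo : ∀ ι : QB →ₐ[ℚ] PadicAlgCl 2, CobOn χ (DD ι) c') {δ : OO} (hδ : Squarefree δ) {s : QB}
    (hs : s ^ 2 = em hi δ) (hk : ∀ σ : GK i₀, σ s = s ↔ md c' σ = 0)
    {ϖ : OO} (hϖp : Prime ϖ) (h2 : ϖ ∣ 2) :
    ¬ ϖ ∣ δ ∧ (ϖ ^ 3 ∣ δ - 1 ∨ ϖ ^ 3 ∣ δ * m - 1) := by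
  obtain ⟨ι, hι'⟩ := exists_two hi hϖp h2
  obtain ⟨hst1, hst2⟩ := loc_strict hi cd hint h8 hϖp hι' (htwo ι) hδ hs hk
  refine ⟨hst1, ?_⟩
  rcases hst2 with h | h
  · left
    refine cube_dvd (iw hi ι) hϖp hι' ?_
    rwa [map_sub, map_one]
  · right
    refine cube_dvd (iw hi ι) hϖp hι' ?_
    rwa [map_sub, map_one]

theorem mainS (hms : Squarefree m) (h8 : (8 : OO) ∣ m - 5 ∨ (8 : OO) ∣ m + 5) (h7 : ¬ s7 ∣ m)
    (cd : ChiD hi χ m r) (hAlg : AlgC m) {c : GK i₀ → ℚ_[2]} (hc : Coc χ c)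
    (hodd : ∀ (p : ℕ) [Fact p.Prime] (ι : QB →ₐ[ℚ] PadicAlgCl p), p ≠ 2 → CobOn χ (II ι) c)
    (htwo : ∀ ι : QB →ₐ[ℚ] PadicAlgCl 2, CobOn χ (DD ι) c) :
    ∃ y : ℚ_[2], ∀ σ, c σ = (vl χ σ - 1) * y := by
  classical
  by_contra hn
  -- the prime divisors of `m` are odd
  have hm2 : ∀ {z : OO}, Prime z → z ∣ m → ¬ z ∣ 2 := by
    intro z hz hzm h2
    apply hz.not_isUnit
    rcases h8 with ⟨J, hJ⟩ | ⟨J, hJ⟩
    · have e : (1 : OO) = m - 2 * (4 * J + 2) := by linear_combination -hJ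
      exact isUnit_of_dvd_one (by rw [e]; exact dvd_sub hzm (h2.mul_right _))
    · have e : (1 : OO) = m - 2 * (4 * J - 3) := by linear_combination -hJ
      exact isUnit_of_dvd_one (by rw [e]; exact dvd_sub hzm (h2.mul_right _))
  have d1 : om ∣ (2 : OO) := ⟨_, om_mul.symm⟩
  have d2 : (1 - om) ∣ (2 : OO) := ⟨om, by rw [mul_comm]; exact om_mul.symm⟩
  obtain ⟨ι, hι'⟩ := exists_two hi prime_om d1
  obtain ⟨σ₀, -, hσ₀⟩ := exists_dec hi cd h8 ι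
  -- normalization
  obtain ⟨a, y, ha, hint, hmin⟩ := normalize hc (cd.big hi hσ₀) hn
  set c' : GK i₀ → ℚ_[2] := fun σ => a * c σ + (vl χ σ - 1) * y with hc'
  have hcc : Coc χ c' := hc.twist cd.cont a y
  have hodd' : ∀ (p : ℕ) [Fact p.Prime] (ι : QB →ₐ[ℚ] PadicAlgCl p), p ≠ 2 →
      CobOn χ (II ι) c' := fun p _ ι hp => (hodd p ι hp).twist a y
  have htwo' : ∀ ι : QB →ₐ[ℚ] PadicAlgCl 2, CobOn χ (DD ι) c' := fun ι => (htwo ι).twist a y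
  -- Kummer theory
  obtain ⟨δ, hδ, hkum⟩ := kum hi (md c') (md_cont hcc) (md_mul hcc hint)
  obtain ⟨s, hs⟩ : ∃ s : QB, s ^ 2 = em hi δ := IsAlgClosed.exists_pow_nat_eq _ (by norm_num)
  have hk : ∀ σ : GK i₀, σ s = s ↔ md c' σ = 0 := hkum s hs
  obtain ⟨h1n, h1s⟩ := at_two hi cd h8 hint htwo' hδ hs hk prime_om d1
  obtain ⟨h2n, h2s⟩ := at_two hi cd h8 hint htwo' hδ hs hk prime_om' d2
  -- the prime divisors of `δ`
  have hsup : ∀ π, Prime π → π ∣ δ → π ∣ m := by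
    intro π hπ hπδ
    by_cases hπ2 : π ∣ 2
    · exfalso
      rw [← om_mul] at hπ2
      rcases hπ.dvd_or_dvd hπ2 with h | h
      · exact h1n (((hπ.dvd_prime_iff_associated prime_om).1 h).symm.dvd.trans hπδ)
      · exact h2n (((hπ.dvd_prime_iff_associated prime_om').1 h).symm.dvd.trans hπδ)
    · by_contra hπm
      obtain ⟨l, hl, κ, hκ⟩ := exists_emb hi hπ
      rw [ι_em] at hκ
      have hl2 : l ≠ 2 := fun h => hπ2 ((two_of_dvd hπ (iw hi κ) hκ).1 h)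
      have h1 := unram hi cd hl2 (hodd' l κ hl2) ((dvd_iff (iw hi κ) hπ hκ m).not.1 hπm)
      refine not_dvd_of_fix (iw hi κ) hπ hκ hδ (s := κ s) ?_ ?_ hπδ
      · rw [← map_pow, hs, ι_em]
      · intro τ hin hτ
        exact fix_I (fun σ hσ => (hk σ).2 (h1 σ hσ)) τ hin hτ
  -- the prime divisors of `m`
  have hloc : ∀ π, Prime π → π ∣ m → (¬ π ∣ δ ∧ Sqm π δ) ∨
      ∃ δ1 m1, δ = π * δ1 ∧ m = π * m1 ∧ Sqm π (δ1 * m1) := by
    rintro π hπ ⟨m1, hm1⟩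
    have hπ7 : ¬ π ∣ s7 := by
      intro h
      apply h7
      have h1 := (hπ.dvd_prime_iff_associated Pool.Agent.R384.prime_s7).1 h
      exact h1.symm.dvd.trans ⟨m1, hm1⟩
    obtain ⟨l, hl, κ, hκ⟩ := exists_emb hi hπ
    rw [ι_em] at hκ
    have hπ2 := hm2 hπ ⟨m1, hm1⟩
    have hl2 : l ≠ 2 := fun h => hπ2 ((two_of_dvd hπ (iw hi κ) hκ).1 h)
    refine loc_gen hi cd hcc hint hπ hπ2 hπ7 hm1 ?_ hκ (hodd' l κ hl2) hδ hs hk
    rintro ⟨x, rfl⟩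
    exact hπ.not_isUnit (hms π ⟨x, by rw [hm1]; ring⟩)
  rcases hAlg δ hδ h1n h2n hsup h1s h2s hloc with h | h
  · -- `δ = 1`
    rw [h, map_one] at hs
    obtain ⟨σ, hσ⟩ := hmin 0
    rw [mul_zero, sub_zero] at hσ
    apply hσ
    have h1 : σ s = s := by
      rcases sq_eq_one_iff.1 hs with h2 | h2
      · rw [h2, map_one]
      · rw [h2, map_neg, map_one]
    have h5 : ‖c' σ‖ < 1 := md_zero.1 ((hk σ).1 h1)
    exact h5
  · -- `δ = m`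
    rw [h] at hs
    have hsr : ∀ σ : GK i₀, σ s = s ↔ σ r = r := by
      intro σ
      have h1 : s ^ 2 = r ^ 2 := by rw [hs, cd.hr]
      rcases sq_eq_sq_iff_eq_or_eq_neg.1 h1 with h2 | h2
      · rw [h2]
      · rw [h2, map_neg, neg_inj]
    obtain ⟨σ, hσ⟩ := hmin (1 / 2)
    apply hσ
    have h2n : ‖(2 : ℚ_[2])‖ = 1 / 2 := Pool.Agent.R384.norm_two'
    have h3 : ‖(vl χ σ - 1) * (1 / 2)‖ = 2 * ‖vl χ σ - 1‖ := by
      rw [norm_mul, norm_div, norm_one, h2n]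
      ring
    by_cases h4 : md c' σ = 0
    · have h5 : ‖c' σ‖ < 1 := md_zero.1 h4
      have h6 := (cd.iff hi σ).2 ((hsr σ).1 ((hk σ).2 h4))
      have e : c' σ - (vl χ σ - 1) * (1 / 2) = c' σ + -((vl χ σ - 1) * (1 / 2)) := by ring
      have h7 : ‖c' σ - (vl χ σ - 1) * (1 / 2)‖ < 1 := by
        rw [e]
        refine add_lt' h5 ?_
        rw [norm_neg, h3]
        linarith
      exact h7
    · have h5 : ¬ ‖c' σ‖ < 1 := fun h => h4 (md_zero.2 h)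
      have h6 := (md_eq (hint σ)).1 h5
      have h7 : σ r = -r := by
        rcases rt_or hi cd.hr σ with h7 | h7
        · exact absurd ((hk σ).1 ((hsr σ).2 h7)) h4
        · exact h7
      have h8 := cd.big hi h7
      have h9 : ¬ ‖(vl χ σ - 1) * (1 / 2)‖ < 1 := by
        rw [h3, h8]
        norm_num
      have h10 := (md_eq (by rw [h3, h8]; norm_num)).1 h9
      have e : c' σ - (vl χ σ - 1) * (1 / 2) = (c' σ - 1) + -((vl χ σ - 1) * (1 / 2) - 1) := by ring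
      rw [e]
      exact add_lt' h6 (by rwa [norm_neg])

end Pool.Agent.N848.SK.G
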