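import Pool.Agent.N848.SK.Desc

/-!
# The vanishing over `K(√D)` and `K(√-1, √D)`
-/

set_option autoImplicit false
set_option linter.unusedSectionVars false

namespace Pool.Agent.N848.SK.G

open Pool.Agent.R384 hiding cyc cyc_inert
open Pool.Agent.Y715.Red Pool.Agent.Y715.Nr Pool.Agent.W237.RK
open Pool.Agent.Y715.Gi (QB KK GK i₀_mem gk_fix)
open Pool.Agent.Y715.Df (Cmp exists_cmp)

open scoped Classical

variable {w : QB} (hw : w ^ 2 = w - 2)

lemma ne_neg' {x : QB} (hx : x ≠ 0) : x ≠ -x := by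
  intro h
  have h2 : (2 : QB) * x = 0 := by linear_combination h
  exact hx ((mul_eq_zero.1 h2).resolve_left two_ne_zero)

/-- the character of the product -/
lemma sgc_mul {x y : QB} (hx0 : x ≠ 0) (hy0 : y ≠ 0) (hxy0 : x * y ≠ 0)
    (hx : ∀ σ : GK w, σ x = x ∨ σ x = -x) (hy : ∀ σ : GK w, σ y = y ∨ σ y = -y)
    (hxy : ∀ σ : GK w, σ (x * y) = x * y ∨ σ (x * y) = -(x * y)) :
    sgc (es hx0 hx) * sgc (es hy0 hy) = sgc (es hxy0 hxy) := by
  refine MonoidHom.ext fun σ => ?_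
  show sgc (es hx0 hx) σ * sgc (es hy0 hy) σ = sgc (es hxy0 hxy) σ
  have hm : σ (x * y) = σ x * σ y := map_mul σ x y
  rcases hx σ with h1 | h1 <;> rcases hy σ with h2 | h2
  · rw [sgc_one ((es_one hx0 hx).2 h1), sgc_one ((es_one hy0 hy).2 h2),
      sgc_one ((es_one hxy0 hxy).2 (by rw [hm, h1, h2])), one_mul]
  · rw [sgc_one ((es_one hx0 hx).2 h1), sgc_neg ((es_neg hy0 hy).2 h2),
      sgc_neg ((es_neg hxy0 hxy).2 (by rw [hm, h1, h2, mul_neg])), one_mul]
  · rw [sgc_neg ((es_neg hx0 hx).2 h1), sgc_one ((es_one hy0 hy).2 h2),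
      sgc_neg ((es_neg hxy0 hxy).2 (by rw [hm, h1, h2, neg_mul])), mul_one]
  · rw [sgc_neg ((es_neg hx0 hx).2 h1), sgc_neg ((es_neg hy0 hy).2 h2),
      sgc_one ((es_one hxy0 hxy).2 (by rw [hm, h1, h2, neg_mul_neg])), neg_mul_neg, one_mul]

variable {D : OO} (hD : ClD D) {r I : QB} (hr : r ^ 2 = em hw D) (hI : I ^ 2 = -1)

include hr in
lemma r_ne (hD0 : D ≠ 0) : r ≠ 0 := by
  intro h
  rw [h, zero_pow two_ne_zero] at hr
  exact hD0 (em_inj hw hr.symm)

include hD hr hI in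
/-- the characters of the quadratic extension -/
theorem van_quad (k : ℤ) (hE : Even k → AlgC D) (hO : Odd k → AlgC (-D)) :
    VanT hw (cK w ^ k) (fixs (fun _ : Fin 1 => r) Finset.univ) := by
  have hr0 : r ≠ 0 := r_ne hw hr hD.sqf.ne_zero
  have hrs : ∀ σ : GK w, σ r = r ∨ σ r = -r := fun σ => rt_or hw hr σ
  refine van_all hw (fun _ => hr0) (fun _ => hrs) 2 Finset.univ _ fun T _ => ?_
  by_cases h : (0 : Fin 1) ∈ T
  · have e : T = {0} := by
      ext i
      rw [Finset.mem_singleton, Subsingleton.elim i 0]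
      exact ⟨fun _ => rfl, fun _ => h⟩
    rw [e, Finset.prod_singleton]
    exact van_D hw hD hr hI hr0 hrs k hE hO
  · have e : T = ∅ := by
      ext i
      rw [Subsingleton.elim i 0]
      exact ⟨fun h1 => absurd h1 h, fun h1 => absurd h1 (Finset.notMem_empty _)⟩
    rw [e, Finset.prod_empty, mul_one]
    exact van_unr hw (cK_cont.zpow k) (unr_cK k)

/-- the square roots of `-1` and `D` -/
def two (I r : QB) : Fin 2 → QB := ![I, r]

include hD hr hI in
/-- the characters of the biquadratic extension -/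
theorem van_biq (k : ℤ) (hE : AlgC D) (hO : AlgC (-D)) :
    VanT hw (cK w ^ k) (fixs (two I r) Finset.univ) := by
  have hr0 : r ≠ 0 := r_ne hw hr hD.sqf.ne_zero
  have hI0 := I_ne hI
  have hrs : ∀ σ : GK w, σ r = r ∨ σ r = -r := fun σ => rt_or hw hr σ
  have hIs : ∀ σ : GK w, σ I = I ∨ σ I = -I := I_or hI
  have hs0 : ∀ i, two I r i ≠ 0 := by
    intro i
    fin_cases i
    · exact hI0
    · exact hr0
  have hs : ∀ (i) (σ : GK w), σ (two I r i) = two I r i ∨ σ (two I r i) = -two I r i := by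
    intro i
    fin_cases i
    · exact hIs
    · exact hrs
  have hIr : (I * r) ^ 2 = em hw (-D) := by
    rw [mul_pow, hI, hr, map_neg]
    ring
  have hIr0 : I * r ≠ 0 := mul_ne_zero hI0 hr0
  have hIrs : ∀ σ : GK w, σ (I * r) = I * r ∨ σ (I * r) = -(I * r) := fun σ => rt_or hw hIr σ
  refine van_all hw hs0 hs 2 Finset.univ _ fun T _ => ?_
  have eP : (∏ i ∈ T, sgc (es (hs0 i) (hs i)) : GK w →* ℤ_[2]ˣ) =
      (if (0 : Fin 2) ∈ T then sgc (es hI0 hIs) else 1) *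
        (if (1 : Fin 2) ∈ T then sgc (es hr0 hrs) else 1) := by
    have e1 : (∏ i ∈ T, sgc (es (hs0 i) (hs i)) : GK w →* ℤ_[2]ˣ) =
        ∏ i : Fin 2, if i ∈ T then sgc (es (hs0 i) (hs i)) else 1 := by
      rw [Finset.prod_ite_mem, Finset.univ_inter]
    rw [e1, Fin.prod_univ_two]
    rfl
  rw [eP]
  by_cases h0 : (0 : Fin 2) ∈ T <;> by_cases h1 : (1 : Fin 2) ∈ T
  · rw [if_pos h0, if_pos h1, sgc_mul hI0 hr0 hIr0 hIs hrs hIrs]
    obtain ⟨n1, n2, n3⟩ := hD.neg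
    rcases Int.even_or_odd k with hk | hk
    · exact van_chi hw n1 n2 n3 (chi_even hw hIr hIr0 hIrs hk) hO
    · have cd := chi_odd hw hIr hI hIr0 hIrs hk
      rw [neg_neg] at cd
      exact van_chi hw hD.sqf (Or.inl hD.eight) hD.n7 cd hE
  · rw [if_pos h0, if_neg h1]
    have e : cK w ^ k * (sgc (es hI0 hIs) * 1) = cK w ^ k * sgc (es hI0 hIs) :=
      MonoidHom.ext fun σ => congrArg (fun z => (cK w ^ k : GK w →* ℤ_[2]ˣ) σ * z)
        (mul_one (sgc (es hI0 hIs) σ))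
    rw [e]
    exact van_unr hw ((cK_cont.zpow k).mul (cont_sgc (es_open hI0 hIs)))
      (unr_mul (unr_cK k) (unr_I hI))
  · rw [if_neg h0, if_pos h1]
    have e : cK w ^ k * (1 * sgc (es hr0 hrs)) = cK w ^ k * sgc (es hr0 hrs) :=
      MonoidHom.ext fun σ => congrArg (fun z => (cK w ^ k : GK w →* ℤ_[2]ˣ) σ * z)
        (one_mul (sgc (es hr0 hrs) σ))
    rw [e]
    exact van_D hw hD hr hI hr0 hrs k (fun _ => hE) (fun _ => hO)
  · rw [if_neg h0, if_neg h1]
    have e : cK w ^ k * (1 * 1) = cK w ^ k :=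
      MonoidHom.ext fun σ => by
        show (cK w ^ k : GK w →* ℤ_[2]ˣ) σ * (1 * 1) = _
        rw [mul_one, mul_one]
    rw [e]
    exact van_unr hw (cK_cont.zpow k) (unr_cK k)

end Pool.Agent.N848.SK.G
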